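import Pool.Agent.Helper38_AEU3.Ker
import Pool.Agent.Helper51_KT.Ktb
import Pool.Agent.Helper51_KT.Kts
import Pool.Agent.Helper7_AEU.Ktl
import Pool.Agent.Helper75_AEU3.MvpAll
import Pool.Agent.Helper36_AEU.Idt

/-! KER, unconditional. -/

namespace Pool.Agent.H60K.H38

theorem kerAll : KerStatement := ker H51.ktb H51.kts AEU.H7.ktl H75.mvp H36.idt

end Pool.Agent.H60K.H38
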