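import Pool.Agent.Helper60_AEU.Stmt

/-! KTP: the formula of Kontorovich and Lebedev, with integrability. -/

set_option autoImplicit false

namespace Pool.Agent.H60K.H38

open MeasureTheory Complex Filter Topology Pool.Agent.H38KL

lemma weight_bdd {x φ : ℝ} (hx : 0 < x) (hφ : |φ| < Real.pi / 2) (τ : ℝ) :
    |Real.exp (φ * τ) * Kit τ x| ≤ Kit 0 (x * Real.cos φ) := by
  have h1 := abs_Kit_le hx τ (abs_nonneg φ) hφ
  rw [Real.cos_abs] at h1
  rw [abs_mul, abs_of_pos (Real.exp_pos _)]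
  have h3 : Real.exp (φ * τ) ≤ Real.exp (|φ| * |τ|) := by
    rw [← abs_mul]
    exact Real.exp_le_exp.mpr (le_abs_self _)
  calc Real.exp (φ * τ) * |Kit τ x|
      ≤ Real.exp (|φ| * |τ|) * (Real.exp (-(|φ| * |τ|)) * Kit 0 (x * Real.cos φ)) := by gcongr
    _ = Kit 0 (x * Real.cos φ) := by
        rw [← mul_assoc, ← Real.exp_add]
        simp

theorem ktp : KtpStatement := by
  intro x x' ψ hx hx' hψ
  refine ⟨?_, klf hx hx' hψ⟩
  have hφ : |ψ / 2| < Real.pi / 2 := by
    rw [abs_div, abs_of_pos (by norm_num : (0 : ℝ) < 2)]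
    linarith
  have h1 := Kit_weight_intg hx hφ
  have h2 := weight_bdd hx' hφ
  have hc := Kit_cont hx'
  have h3 := h1.mul_bdd (c := Kit 0 (x' * Real.cos (ψ / 2)))
    (g := fun τ : ℝ => Real.exp (ψ / 2 * τ) * Kit τ x')
    (by fun_prop : Continuous fun τ : ℝ => Real.exp (ψ / 2 * τ) * Kit τ x').aestronglyMeasurable
    (Eventually.of_forall fun τ => by rw [Real.norm_eq_abs]; exact h2 τ)
  refine h3.congr (Eventually.of_forall fun τ => ?_)
  simp only
  have : Real.exp (ψ * τ) = Real.exp (ψ / 2 * τ) * Real.exp (ψ / 2 * τ) := by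
    rw [← Real.exp_add]
    congr 1
    ring
  rw [this]
  ring

end Pool.Agent.H60K.H38
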