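import Pool.Agent.Helper38_AEU3.KerH

/-! KER: the kernel of paths which avoid side 2 and visit side 1. -/

set_option autoImplicit false
set_option linter.unusedSimpArgs false
set_option linter.unusedVariables false

namespace Pool.Agent.H60K.H38

open MeasureTheory Complex Filter Topology ProbabilityTheory Pool.Agent.H16Iso Pool.Agent.H62T
  Pool.Agent.H16F Pool.Agent.H38KL

section

variable {η1 η2 κ r' ψ' : ℝ}

/-- the difference has the local smoothing property -/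
lemma D_lmp (hS : KtsStatement) (hB : KtbStatement) (hL : KtlStatement) (hM : MvpStatement)
    (d : ℝ) (h1 : 0 < η1)
    (h2 : 0 < η2) (h3 : η1 + η2 < Real.pi) (hκ : 0 < κ) (hr' : 0 < r') (ha' : -η2 < ψ')
    (hb' : ψ' < η1) :
    LMP (κ ^ 2) (Wd η1 η2)
      (fun z => Rk η1 η2 d κ (r' * exp (ψ' * I)) z - Vk η1 η2 κ r' ψ' z) := by
  intro K hK hs
  obtain ⟨r, hr, hball, ⟨M, hMb⟩, hest⟩ := Vk_lmp hS hB hM h1 h2 h3 hκ hr' ha' hb' K hK hs
  set z' : ℂ := r' * exp (ψ' * I) with hz'd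
  have hz' : z' ∈ Wd η1 η2 := mem_Wd h3 hr' ha' hb'
  set a : ℝ := -ip (us η1 η2 1) z' with ha
  have ha0 : 0 < a := by have := hz'.1; linarith
  have h2pi : 1 ≤ 2 * Real.pi := by linarith only [Real.pi_gt_three]
  have hKa : 0 < Kit 0 (κ * a) := hB.2.2.2.1 _ (by positivity)
  have hRb : ∀ y ∈ Wd η1 η2, |Rk η1 η2 d κ z' y| ≤ Kit 0 (κ * a) := by
    intro y hy
    obtain ⟨-, hR, hR'⟩ := Rk_intg η1 η2 d hL hκ hy hz'
    have hd := dist_rf' η1 η2 d 1 (hh1 d) (x := y) (y := z') hy.1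
    have k1 : Kit 0 (κ * ‖y - rf' η1 η2 d 1 z'‖) ≤ Kit 0 (κ * a) :=
      hB.2.2.2.2.1 (Set.mem_Ioi.mpr (by positivity))
        (Set.mem_Ioi.mpr (mul_pos hκ (ha0.trans_le hd))) (by gcongr)
    rw [abs_of_nonneg hR']
    refine hR.trans ?_
    rw [div_le_iff₀ (by linarith)]
    nlinarith only [k1, h2pi, hKa]
  refine ⟨r, hr, hball, ⟨Kit 0 (κ * a) + M, fun z hz y hy => ?_⟩, fun ε hε => ?_⟩
  · exact (abs_sub _ _).trans (add_le_add (hRb y (hball z hz hy)) (hMb z hz y hy))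
  · obtain ⟨δ1, hδ1, e1⟩ := hest (ε / 2) (by positivity)
    obtain ⟨δ2, hδ2, e2⟩ := Rk_est η1 η2 d hL hκ hz' hr (by positivity : 0 < ε / 2)
    refine ⟨min δ1 δ2, lt_min hδ1 hδ2, fun δ hδ hδm z hz => ?_⟩
    have q1 := e1 δ hδ (hδm.trans_le (min_le_left _ _)) z hz
    have q2 := e2 δ hδ (hδm.trans_le (min_le_right _ _)) z (hball z hz)
    have hGm : Measurable fun y : ℂ => G δ (z - y) := by
      unfold G
      fun_prop
    have hi : ∀ (f : ℂ → ℝ) (C : ℝ), Measurable f → (∀ y ∈ Metric.closedBall z r, |f y| ≤ C) →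
        IntegrableOn (fun y => G δ (z - y) * f y) (Metric.ball z r) := by
      intro f C hf hC
      have hC0 : 0 ≤ C := (abs_nonneg _).trans (hC z (Metric.mem_closedBall_self hr.le))
      refine Measure.integrableOn_of_bounded (M := (4 * Real.pi * δ)⁻¹ * C)
        (measure_ball_lt_top (μ := (volume : Measure ℂ)) (x := z) (r := r)).ne
        (hGm.mul hf).aestronglyMeasurable ?_
      refine (ae_restrict_iff' measurableSet_ball).mpr (Eventually.of_forall fun y hy => ?_)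
      rw [Real.norm_eq_abs, abs_mul, abs_of_nonneg (G_nn hδ _)]
      exact mul_le_mul (AEU.H44.G_le hδ _) (hC y (Metric.ball_subset_closedBall hy))
        (abs_nonneg _) (by positivity)
    have i1 := hi (Rk η1 η2 d κ z') _ (Rk_meas η1 η2 d κ z')
      (fun y hy => hRb y (hball z hz hy))
    have i2 := hi (Vk η1 η2 κ r' ψ') _ (Vk_meas hB η1 η2 κ r' ψ') (fun y hy => hMb z hz y hy)
    have e3 : ∫ y in Metric.ball z r, G δ (z - y) * (Rk η1 η2 d κ z' y - Vk η1 η2 κ r' ψ' y) =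
        (∫ y in Metric.ball z r, G δ (z - y) * Rk η1 η2 d κ z' y) -
        ∫ y in Metric.ball z r, G δ (z - y) * Vk η1 η2 κ r' ψ' y := by
      rw [← integral_sub i1 i2]
      refine integral_congr_ae (Eventually.of_forall fun y => ?_)
      simp only
      ring
    rw [e3]
    have e4 : ∀ p q w x y : ℝ, p - q - w * (x - y) = (p - w * x) - (q - w * y) :=
      fun p q w x y => by ring
    rw [e4]
    refine (abs_sub _ _).trans ((add_le_add q2 q1).trans (le_of_eq ?_))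
    ring

/-- the difference is small near the boundary -/
lemma D_bd (hS : KtsStatement) (hB : KtbStatement) (hL : KtlStatement)
    (d : ℝ) (h1 : 0 < η1)
    (h2 : 0 < η2) (h3 : η1 + η2 < Real.pi) (hκ : 0 < κ) (hr' : 0 < r') (ha' : -η2 < ψ')
    (hb' : ψ' < η1) {ε : ℝ} (hε : 0 < ε) :
    ∃ K : Set ℂ, IsCompact K ∧ K ⊆ Wd η1 η2 ∧ ∀ z ∈ Wd η1 η2, z ∉ K →
      |Rk η1 η2 d κ (r' * exp (ψ' * I)) z - Vk η1 η2 κ r' ψ' z| ≤ ε * (1 + Bf κ z) := by
  have hpi := Real.pi_pos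
  obtain ⟨R0, hR0, hinf⟩ := bd_inf hS hB hL d h1 h2 h3 hκ hr' ha' hb' hε
  obtain ⟨r0, hr0, hzero⟩ := bd_zero hS hB hL d h1 h2 h3 hκ hr' ha' hb' hε
  set z' : ℂ := r' * exp (ψ' * I) with hz'd
  have hz' : z' ∈ Wd η1 η2 := mem_Wd h3 hr' ha' hb'
  obtain ⟨δ1, hδ1, hs1⟩ := side hB d hκ hz' 1 (Or.inl rfl) R0 (by positivity : 0 < ε / 2)
  obtain ⟨δ2, hδ2, hs2⟩ := side hB d hκ hz' 2 (Or.inr rfl) R0 (by positivity : 0 < ε / 2)
  have hl : 0 < lam0 η1 ψ' := by unfold lam0; linarith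
  have hc := cos_ph0 hb' ha' h3
  have hK : 0 < Kit 0 (κ * r' * Real.cos (ph0 η1 ψ')) := hB.2.2.2.1 _ (by positivity)
  have hK0 : 0 < Kit 0 (κ * r0 * Real.cos (ph0 η1 ψ')) := hB.2.2.2.1 _ (by positivity)
  set K' := Kit 0 (κ * r' * Real.cos (ph0 η1 ψ')) with hKd
  set K0 := Kit 0 (κ * r0 * Real.cos (ph0 η1 ψ')) with hK0d
  have hal : 0 < η1 + η2 := by linarith
  set m2 : ℝ := ε / 2 * (lam0 η1 ψ' * (η1 + η2)) / (2 * (K0 * K')) with hm2
  set m1 : ℝ := ε / 2 * (lam0 η1 ψ' / 2) ^ 2 / (K0 * K') with hm1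
  have hm2p : 0 < m2 := by positivity
  have hm1p : 0 < m1 := by positivity
  set δ : ℝ := min (min (δ1 / R0) (δ2 / R0)) (min (min m1 m2) (lam0 η1 ψ' / 2)) with hδ
  have hδp : 0 < δ := lt_min (lt_min (by positivity) (by positivity))
    (lt_min (lt_min hm1p hm2p) (by positivity))
  have d1 : δ ≤ δ1 / R0 := (min_le_left _ _).trans (min_le_left _ _)
  have d2 : δ ≤ δ2 / R0 := (min_le_left _ _).trans (min_le_right _ _)
  have d3 : δ ≤ m1 := ((min_le_right _ _).trans (min_le_left _ _)).trans (min_le_left _ _)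
  have d4 : δ ≤ m2 := ((min_le_right _ _).trans (min_le_left _ _)).trans (min_le_right _ _)
  have d5 : δ ≤ lam0 η1 ψ' / 2 := (min_le_right _ _).trans (min_le_right _ _)
  refine ⟨(fun p : ℝ × ℝ => (p.1 : ℂ) * exp (p.2 * I)) ''
    (Set.Icc r0 R0 ×ˢ Set.Icc (-η2 + δ) (η1 - δ)), ?_, ?_, ?_⟩
  · exact (isCompact_Icc.prod isCompact_Icc).image (by fun_prop)
  · rintro _ ⟨⟨r, ψ⟩, ⟨hr, hψ⟩, rfl⟩
    exact mem_Wd h3 (hr0.trans_le hr.1) (by have := hψ.1; simp only at this; linarith only [hδp, this])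
      (by have := hψ.2; simp only at this; linarith)
  · intro z hz hzK
    have hBf : 0 ≤ Bf κ z := by
      unfold Bf
      have hzn : 0 < ‖z‖ := by
        rw [norm_pos_iff]
        rintro rfl
        have := hz.1
        simp [ip] at this
      exact (hB.2.2.2.1 _ (by positivity)).le
    have hεB : ε ≤ ε * (1 + Bf κ z) := by nlinarith only [hε, hBf]
    by_cases c1 : ‖z‖ < r0
    · exact hzero z hz c1
    by_cases c2 : R0 ≤ ‖z‖
    · exact (hinf z hz c2).trans hεB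
    push Not at c1 c2
    refine le_trans ?_ hεB
    obtain ⟨r, ψ, hr, hpa, hpb, rfl⟩ := Wd_polar h1 h2 h3 hz
    have hzR := c2.le
    rw [norm_polar hr] at c1 c2
    have hK1 : Kit 0 (κ * r * Real.cos (ph0 η1 ψ')) ≤ K0 :=
      hB.2.2.2.2.1 (Set.mem_Ioi.mpr (by positivity)) (Set.mem_Ioi.mpr (by positivity))
        (by gcongr)
    have hK1p : 0 < Kit 0 (κ * r * Real.cos (ph0 η1 ψ')) := hB.2.2.2.1 _ (by positivity)
    obtain ⟨-, -, hRn⟩ := Rk_intg η1 η2 d hL hκ hz hz'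
    by_cases c3 : ψ < -η2 + δ
    · -- near side 2
      have hip : -ip (us η1 η2 2) (r * exp (ψ * I)) < δ2 := by
        rw [ip2, neg_neg]
        have hsin := Real.sin_le (by linarith : 0 ≤ ψ + η2)
        have hsin0 : 0 ≤ Real.sin (ψ + η2) :=
          Real.sin_nonneg_of_nonneg_of_le_pi (by linarith) (by linarith)
        calc r * Real.sin (ψ + η2) ≤ R0 * (ψ + η2) := by gcongr
          _ < R0 * δ := by
              have : ψ + η2 < δ := by linarith
              gcongr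
          _ ≤ R0 * (δ2 / R0) := by gcongr
          _ = δ2 := by field_simp
      obtain ⟨hne, hE⟩ := hs2 _ hz hzR hip
      obtain ⟨hRE, -⟩ := Rk_E2 η1 η2 d hL hκ hne hz hz'
      have hE' := (abs_le.mp hE).2
      have hV := Vk_bound hS hB h1 h2 h3 hκ hr hr' hpa hpb ha' hb'
      have hV2 : |Vk η1 η2 κ r' ψ' (r * exp (ψ * I))| ≤ ε / 2 := by
        refine hV.trans ?_
        have f1 : ψ + η2 ≤ m2 := by linarith
        have f0 : 0 ≤ ψ + η2 := by linarith
        calc 2 * ((ψ + η2) / (η1 + η2)) * (Kit 0 (κ * r * Real.cos (ph0 η1 ψ')) * K') /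
              lam0 η1 ψ' ≤ 2 * (m2 / (η1 + η2)) * (K0 * K') / lam0 η1 ψ' := by gcongr
          _ = ε / 2 := by
              rw [hm2]
              field_simp
      have := abs_le.mp hV2
      rw [abs_le]
      constructor <;> linarith
    by_cases c4 : η1 - δ < ψ
    · -- near side 1
      have hip : -ip (us η1 η2 1) (r * exp (ψ * I)) < δ1 := by
        rw [ip1]
        have hsin := Real.sin_le (by linarith : 0 ≤ η1 - ψ)
        have hsin0 : 0 ≤ Real.sin (η1 - ψ) :=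
          Real.sin_nonneg_of_nonneg_of_le_pi (by linarith) (by linarith)
        have e1 : Real.sin (ψ - η1) = -Real.sin (η1 - ψ) := by
          rw [← Real.sin_neg]
          congr 1
          ring
        rw [e1, mul_neg, neg_neg]
        calc r * Real.sin (η1 - ψ) ≤ R0 * (η1 - ψ) := by gcongr
          _ < R0 * δ := by
              have : η1 - ψ < δ := by linarith
              gcongr
          _ ≤ R0 * (δ1 / R0) := by gcongr
          _ = δ1 := by field_simp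
      obtain ⟨hne, hE⟩ := hs1 _ hz hzR hip
      obtain ⟨-, hRE⟩ := Rk_E2 η1 η2 d hL hκ hne hz hz'
      have hE' := (abs_le.mp hE).2
      have hN := near1 hS hB d h1 h2 h3 hκ hr hr' ha' hpb hb' (by linarith)
      have hN2 : |Ek η1 η2 d κ 2 z' (r * exp (ψ * I)) -
          Vk η1 η2 κ r' ψ' (r * exp (ψ * I))| ≤ ε / 2 := by
        refine hN.trans ?_
        have f1 : η1 - ψ ≤ m1 := by linarith
        have f0 : 0 ≤ η1 - ψ := by linarith
        calc (η1 - ψ) / (lam0 η1 ψ' / 2) * (Kit 0 (κ * r * Real.cos (ph0 η1 ψ')) * K') /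
              (lam0 η1 ψ' / 2) ≤ m1 / (lam0 η1 ψ' / 2) * (K0 * K') / (lam0 η1 ψ' / 2) := by
              gcongr
          _ = ε / 2 := by
              rw [hm1]
              field_simp
      calc |Rk η1 η2 d κ z' (r * exp (ψ * I)) - Vk η1 η2 κ r' ψ' (r * exp (ψ * I))|
          = |(Rk η1 η2 d κ z' (r * exp (ψ * I)) - Ek η1 η2 d κ 2 z' (r * exp (ψ * I))) +
            (Ek η1 η2 d κ 2 z' (r * exp (ψ * I)) - Vk η1 η2 κ r' ψ' (r * exp (ψ * I)))| := by
            congr 1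
            ring
        _ ≤ ε / 2 + ε / 2 := (abs_add_le _ _).trans (add_le_add (hRE.trans hE') hN2)
        _ = ε := by ring
    exfalso
    push Not at c3 c4
    exact hzK ⟨(r, ψ), ⟨⟨c1, c2.le⟩, ⟨c3, c4⟩⟩, rfl⟩

/-- the two kernels agree -/
theorem Rk_eq_Vk (hS : KtsStatement) (hB : KtbStatement) (hL : KtlStatement)
    (hM : MvpStatement) (hI : IdtStatement) (d : ℝ) (h1 : 0 < η1)
    (h2 : 0 < η2) (h3 : η1 + η2 < Real.pi) (hκ : 0 < κ) (hr' : 0 < r') (ha' : -η2 < ψ')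
    (hb' : ψ' < η1) {z : ℂ} (hz : z ∈ Wd η1 η2) :
    Rk η1 η2 d κ (r' * exp (ψ' * I)) z = Vk η1 η2 κ r' ψ' z := by
  have h := hI (κ ^ 2) (Wd η1 η2)
    (fun z => Rk η1 η2 d κ (r' * exp (ψ' * I)) z - Vk η1 η2 κ r' ψ' z) (Bf κ) (by positivity)
    (Wd_open η1 η2) ((Rk_meas η1 η2 d κ _).sub (Vk_meas hB η1 η2 κ r' ψ')) (Bf_meas hB κ)
    (D_lmp hS hB hL hM d h1 h2 h3 hκ hr' ha' hb') (Bf_lmp hS hB hM h1 h2 h3 hκ)
    (fun z hz => by
      unfold Bf
      have hzn : 0 < ‖z‖ := by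
        rw [norm_pos_iff]
        rintro rfl
        have := hz.1
        simp [ip] at this
      exact (hB.2.2.2.1 _ (by positivity)).le)
    (fun ε hε => D_bd hS hB hL d h1 h2 h3 hκ hr' ha' hb' hε) z hz
  exact sub_eq_zero.mp h

end

theorem ker (hB : KtbStatement) (hS : KtsStatement) (hL : KtlStatement)
    (hM : MvpStatement) (hI : IdtStatement) : KerStatement := by
  intro η1 η2 d κ r r' ψ ψ' h1 h2 h3 hκ hr hr' ha hb ha' hb'
  have hz : (r * exp (ψ * I) : ℂ) ∈ Wd η1 η2 := mem_Wd h3 hr ha hb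
  have hz' : (r' * exp (ψ' * I) : ℂ) ∈ Wd η1 η2 := mem_Wd h3 hr' ha' hb'
  refine ⟨(Rk_intg η1 η2 d hL hκ hz hz').1, ?_, ?_⟩
  · have h := (F_intg hS hB h1 h2 h3 hκ hr hr' ha hb ha' hb').const_mul (1 / 2)
    refine Integrable.congr h (Eventually.of_forall fun τ => ?_)
    simp only
    rw [Vf_polar hS h3 hκ hr ha hb]
    unfold qf
    ring
  · have h := Rk_eq_Vk hS hB hL hM hI d h1 h2 h3 hκ hr' ha' hb' hz
    rw [Vk_polar hS h3 hκ hr ha hb] at h
    exact h

end Pool.Agent.H60K.H38
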