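import Pool.Agent.Helper60_AEU.Stmt
import Pool.Agent.Helper44_BLK.Lab
import Pool.Agent.Helper44_BLK.Small
import Pool.Agent.Helper44_BLK.Psg
import Pool.Agent.Helper15_AEU3.Hpk

/-! KER, part A: geometry of the wedge, kernels of the wedge. -/

set_option autoImplicit false
set_option linter.unusedSimpArgs false

namespace Pool.Agent.H60K.H38

open MeasureTheory Complex Filter Topology ProbabilityTheory Pool.Agent.H16Iso Pool.Agent.H62T
  Pool.Agent.H16F Pool.Agent.H38KL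

/-! ### Geometry -/

lemma us_norm (η1 η2 : ℝ) (s : Fin 3) : ‖us η1 η2 s‖ = 1 := by
  unfold us
  split_ifs
  · simp
  · rw [norm_mul, Complex.norm_I, one_mul, Complex.norm_exp_ofReal_mul_I]
  · rw [norm_neg, norm_mul, Complex.norm_I, one_mul]
    have : -((η2 : ℂ) * I) = ((-η2 : ℝ) : ℂ) * I := by push_cast; ring
    rw [this, Complex.norm_exp_ofReal_mul_I]

lemma us1 (η1 η2 : ℝ) : us η1 η2 1 = I * exp (η1 * I) := by
  simp [us]

lemma us2 (η1 η2 : ℝ) : us η1 η2 2 = -(I * exp (-(η2 * I))) := by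
  simp [us]

lemma hh1 (d : ℝ) : hh d 1 = 0 := by simp [hh]

lemma hh2 (d : ℝ) : hh d 2 = 0 := by simp [hh]

lemma ip1 (η1 η2 r ψ : ℝ) : ip (us η1 η2 1) (r * exp (ψ * I)) = r * Real.sin (ψ - η1) := by
  rw [us1, Complex.exp_mul_I, Complex.exp_mul_I, Real.sin_sub]
  simp only [ip, ← Complex.ofReal_cos, ← Complex.ofReal_sin, Complex.mul_re, Complex.mul_im,
    Complex.add_re, Complex.add_im, Complex.I_re, Complex.I_im, Complex.ofReal_re,
    Complex.ofReal_im]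
  ring

lemma ip2 (η1 η2 r ψ : ℝ) : ip (us η1 η2 2) (r * exp (ψ * I)) = -(r * Real.sin (ψ + η2)) := by
  have : -((η2 : ℂ) * I) = ((-η2 : ℝ) : ℂ) * I := by push_cast; ring
  rw [us2, this, Complex.exp_mul_I, Complex.exp_mul_I, Real.sin_add]
  simp only [ip, ← Complex.ofReal_cos, ← Complex.ofReal_sin, Complex.mul_re, Complex.mul_im,
    Complex.add_re, Complex.add_im, Complex.I_re, Complex.I_im, Complex.ofReal_re,
    Complex.ofReal_im, Complex.neg_re, Complex.neg_im, Real.cos_neg, Real.sin_neg]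
  ring

/-- the wedge -/
def Wd (η1 η2 : ℝ) : Set ℂ := {z | ip (us η1 η2 1) z < 0 ∧ ip (us η1 η2 2) z < 0}

lemma Wd_eq (η1 η2 d : ℝ) : Dm (us η1 η2) (hh d) {1, 2} = Wd η1 η2 := by
  ext z
  simp [Dm, Wd, hh1, hh2]

lemma Dm1 (η1 η2 d : ℝ) : Dm (us η1 η2) (hh d) {1} = {z | ip (us η1 η2 1) z < 0} := by
  ext z
  simp [Dm, hh1]

lemma Dm2 (η1 η2 d : ℝ) : Dm (us η1 η2) (hh d) {2} = {z | ip (us η1 η2 2) z < 0} := by
  ext z
  simp [Dm, hh2]

lemma ip_cont (u : ℂ) : Continuous (ip u) := by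
  unfold ip
  fun_prop

lemma Wd_open (η1 η2 : ℝ) : IsOpen (Wd η1 η2) :=
  (isOpen_lt (ip_cont _) continuous_const).inter (isOpen_lt (ip_cont _) continuous_const)

lemma mem_Wd {η1 η2 r ψ : ℝ} (h3 : η1 + η2 < Real.pi) (hr : 0 < r)
    (ha : -η2 < ψ) (hb : ψ < η1) : (r * exp (ψ * I) : ℂ) ∈ Wd η1 η2 := by
  refine ⟨?_, ?_⟩
  · rw [ip1]
    have : Real.sin (ψ - η1) < 0 := Real.sin_neg_of_neg_of_neg_pi_lt (by linarith) (by linarith)
    exact mul_neg_of_pos_of_neg hr this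
  · rw [ip2]
    have : 0 < Real.sin (ψ + η2) := Real.sin_pos_of_pos_of_lt_pi (by linarith) (by linarith)
    have := mul_pos hr this
    linarith

lemma Wd_polar {η1 η2 : ℝ} (h1 : 0 < η1) (h2 : 0 < η2) (h3 : η1 + η2 < Real.pi) {z : ℂ}
    (hz : z ∈ Wd η1 η2) : ∃ r ψ : ℝ, 0 < r ∧ -η2 < ψ ∧ ψ < η1 ∧ z = r * exp (ψ * I) := by
  have hpi := Real.pi_pos
  set m : ℝ := (η1 - η2) / 2 with hm
  set w : ℂ := z * exp (-(m * I)) with hw
  have hz0 : z ≠ 0 := by
    rintro rfl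
    have := hz.1
    simp [ip] at this
  have hw0 : w ≠ 0 := mul_ne_zero hz0 (Complex.exp_ne_zero _)
  have hr : 0 < ‖w‖ := norm_pos_iff.mpr hw0
  have hzw : z = ‖w‖ * exp (((m + Complex.arg w : ℝ) : ℂ) * I) := by
    have e1 : z = w * exp (m * I) := by
      rw [hw, mul_assoc, ← Complex.exp_add]
      simp
    have e2 := Complex.norm_mul_exp_arg_mul_I w
    rw [e1]
    conv_lhs => rw [← e2]
    rw [mul_assoc, ← Complex.exp_add]
    congr 2
    push_cast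
    ring
  set χ := Complex.arg w with hχ
  have hχ1 : -Real.pi < χ := Complex.neg_pi_lt_arg w
  have hχ2 : χ ≤ Real.pi := Complex.arg_le_pi w
  have a1 := hz.1
  have a2 := hz.2
  rw [hzw, ip1] at a1
  rw [hzw, ip2] at a2
  have b1 : Real.sin (m + χ - η1) < 0 := by
    by_contra hc
    push Not at hc
    have := mul_nonneg hr.le hc
    linarith
  have b2 : 0 < Real.sin (m + χ + η2) := by
    by_contra hc
    push Not at hc
    have := mul_nonpos_of_nonneg_of_nonpos hr.le hc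
    linarith
  have e1 : m + χ - η1 = χ - (η1 + η2) / 2 := by rw [hm]; ring
  have e2 : m + χ + η2 = χ + (η1 + η2) / 2 := by rw [hm]; ring
  rw [e1] at b1
  rw [e2] at b2
  have c1 : -((η1 + η2) / 2) < χ := by
    by_contra hc
    push Not at hc
    have : Real.sin (χ + (η1 + η2) / 2) ≤ 0 :=
      Real.sin_nonpos_of_nonpos_of_neg_pi_le (by linarith) (by linarith)
    linarith
  have c2 : χ < (η1 + η2) / 2 := by
    by_contra hc
    push Not at hc
    have : 0 ≤ Real.sin (χ - (η1 + η2) / 2) :=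
      Real.sin_nonneg_of_nonneg_of_le_pi (by linarith) (by linarith)
    linarith
  exact ⟨‖w‖, m + χ, hr, by rw [hm]; linarith, by rw [hm]; linarith, hzw⟩

/-! ### Kernels -/

section

variable (η1 η2 d : ℝ)

/-- paths which avoid side 2 and visit side 1 -/
noncomputable def Kk (t : ℝ) (x y : ℂ) : ℝ := kME (us η1 η2) (hh d) {1} {2} t x y

lemma Kk_eq (t : ℝ) (x y : ℂ) : Kk η1 η2 d t x y =
    pB (us η1 η2) (hh d) {2} t x y - pB (us η1 η2) (hh d) {1, 2} t x y := by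
  unfold Kk kME
  have : ({1} : Finset (Fin 3)).powerset = {∅, {1}} := by decide
  rw [this, Finset.sum_pair (by decide)]
  have e : ({2} : Finset (Fin 3)) ∪ {1} = {1, 2} := by decide
  rw [e]
  simp
  ring

lemma pB_nonneg (B : Finset (Fin 3)) {t : ℝ} (ht : 0 < t) (x y : ℂ) :
    0 ≤ pB (us η1 η2) (hh d) B t x y :=
  H8.pD_nonneg (H44.dm_open (us η1 η2) (hh d) B) ht x y

lemma lab0 : LabStatement := H44.lab H15.hpk

lemma sum_le_of_subset {S T : Finset (Finset (Fin 3))} (h : S ⊆ T) {t : ℝ} (ht : 0 < t)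
    (x y : ℂ) : ∑ A ∈ S, kA (us η1 η2) (hh d) A t x y ≤ ∑ A ∈ T, kA (us η1 η2) (hh d) A t x y :=
  Finset.sum_le_sum_of_subset_of_nonneg h fun A _ _ =>
    ((lab0 (us η1 η2) (hh d) (us_norm η1 η2)).2 t x y ht).1 A

lemma pB_anti {B C : Finset (Fin 3)} (h : B ⊆ C) {t : ℝ} (ht : 0 < t) (x y : ℂ) :
    pB (us η1 η2) (hh d) C t x y ≤ pB (us η1 η2) (hh d) B t x y := by
  have hl := ((lab0 (us η1 η2) (hh d) (us_norm η1 η2)).2 t x y ht).2.1
  rw [hl B, hl C]
  refine sum_le_of_subset η1 η2 d ?_ ht x y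
  exact Finset.powerset_mono.mpr (Finset.compl_subset_compl.mpr h)

lemma pB_empty {t : ℝ} (ht : 0 < t) (x y : ℂ) : pB (us η1 η2) (hh d) ∅ t x y = G t (x - y) := by
  have h1 := Pool.Agent.H60K.H15.hpk
  unfold pB
  have : Dm (us η1 η2) (hh d) ∅ = Set.univ := by
    ext z
    simp [Dm]
  rw [this]
  exact H44.uni t x y ht

lemma Kk_nonneg {t : ℝ} (ht : 0 < t) (x y : ℂ) : 0 ≤ Kk η1 η2 d t x y := by
  rw [Kk_eq]
  have := pB_anti η1 η2 d (B := {2}) (C := {1, 2}) (by decide) ht x y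
  linarith

lemma Kk_le_p2 {t : ℝ} (ht : 0 < t) (x y : ℂ) :
    Kk η1 η2 d t x y ≤ pB (us η1 η2) (hh d) {2} t x y := by
  rw [Kk_eq]
  have := pB_nonneg η1 η2 d {1, 2} ht x y
  linarith

lemma super12 {t : ℝ} (ht : 0 < t) (x y : ℂ) :
    pB (us η1 η2) (hh d) {1} t x y + pB (us η1 η2) (hh d) {2} t x y ≤
      pB (us η1 η2) (hh d) {1, 2} t x y + G t (x - y) := by
  have hl := (lab0 (us η1 η2) (hh d) (us_norm η1 η2)).2 t x y ht
  rw [← pB_empty η1 η2 d ht x y, hl.2.1 {1}, hl.2.1 {2}, hl.2.1 {1, 2}, hl.2.1 ∅]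
  have e := Finset.sum_union_inter (s₁ := (({1} : Finset (Fin 3))ᶜ).powerset)
    (s₂ := (({2} : Finset (Fin 3))ᶜ).powerset) (f := fun A => kA (us η1 η2) (hh d) A t x y)
  rw [← e]
  have e2 : (({1} : Finset (Fin 3))ᶜ).powerset ∩ (({2} : Finset (Fin 3))ᶜ).powerset =
      (({1, 2} : Finset (Fin 3))ᶜ).powerset := by decide
  rw [e2, add_comm]
  have h3 := sum_le_of_subset η1 η2 d (S := (({1} : Finset (Fin 3))ᶜ).powerset ∪
    (({2} : Finset (Fin 3))ᶜ).powerset) (T := ((∅ : Finset (Fin 3))ᶜ).powerset)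
    (by decide) ht x y
  gcongr

lemma Kk_le {t : ℝ} (ht : 0 < t) (x y : ℂ) :
    Kk η1 η2 d t x y ≤ G t (x - y) - pB (us η1 η2) (hh d) {1} t x y := by
  rw [Kk_eq]
  have := super12 η1 η2 d ht x y
  linarith

/-- reflections -/
noncomputable def rf' (s : Fin 3) (y : ℂ) : ℂ := rf (us η1 η2) (hh d) s y

lemma p1_eq {t : ℝ} (ht : 0 < t) {x y : ℂ} (hx : ip (us η1 η2 1) x < 0)
    (hy : ip (us η1 η2 1) y < 0) :
    pB (us η1 η2) (hh d) {1} t x y = G t (x - y) - G t (x - rf' η1 η2 d 1 y) := by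
  unfold pB
  rw [Dm1, H15.hpk (us η1 η2 1) 0 t x y (us_norm _ _ _) ht hx hy]
  unfold rf' rf
  rw [hh1]

lemma p2_eq {t : ℝ} (ht : 0 < t) {x y : ℂ} (hx : ip (us η1 η2 2) x < 0)
    (hy : ip (us η1 η2 2) y < 0) :
    pB (us η1 η2) (hh d) {2} t x y = G t (x - y) - G t (x - rf' η1 η2 d 2 y) := by
  unfold pB
  rw [Dm2, H15.hpk (us η1 η2 2) 0 t x y (us_norm _ _ _) ht hx hy]
  unfold rf' rf
  rw [hh2]

lemma abs_ip_le {u : ℂ} (hu : ‖u‖ = 1) (z : ℂ) : |ip u z| ≤ ‖z‖ := by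
  have h1 : ip u z = (starRingEnd ℂ u * z).re := by
    simp [ip, Complex.mul_re]
  rw [h1]
  refine (Complex.abs_re_le_norm _).trans ?_
  rw [norm_mul, RCLike.norm_conj, hu, one_mul]

lemma ip_rf' (s : Fin 3) (hs : hh d s = 0) (y : ℂ) :
    ip (us η1 η2 s) (rf' η1 η2 d s y) = -ip (us η1 η2 s) y := by
  have hu := us_norm η1 η2 s
  have h1 := Complex.sq_norm (us η1 η2 s)
  rw [hu, Complex.normSq_apply] at h1
  unfold rf' rf
  rw [hs]
  simp only [ip, Complex.sub_re, Complex.sub_im, Complex.re_ofReal_mul, Complex.im_ofReal_mul]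
  linear_combination (2 * ((us η1 η2 s).re * y.re + (us η1 η2 s).im * y.im)) * h1

lemma dist_rf' (s : Fin 3) (hs : hh d s = 0) {x y : ℂ} (hx : ip (us η1 η2 s) x < 0) :
    -ip (us η1 η2 s) y ≤ ‖x - rf' η1 η2 d s y‖ := by
  have h1 := abs_ip_le (us_norm η1 η2 s) (x - rf' η1 η2 d s y)
  have h2 : ip (us η1 η2 s) (x - rf' η1 η2 d s y) =
      ip (us η1 η2 s) x - ip (us η1 η2 s) (rf' η1 η2 d s y) := by
    simp only [ip, Complex.sub_re, Complex.sub_im]
    ring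
  rw [h2, ip_rf' η1 η2 d s hs] at h1
  have h3 := neg_abs_le (ip (us η1 η2 s) x - -ip (us η1 η2 s) y)
  linarith

/-- two points far from the side -/
lemma dist_rf2 (s : Fin 3) (hs : hh d s = 0) {x y : ℂ} :
    -ip (us η1 η2 s) x - ip (us η1 η2 s) y ≤ ‖x - rf' η1 η2 d s y‖ := by
  have h1 := abs_ip_le (us_norm η1 η2 s) (x - rf' η1 η2 d s y)
  have h2 : ip (us η1 η2 s) (x - rf' η1 η2 d s y) =
      ip (us η1 η2 s) x - ip (us η1 η2 s) (rf' η1 η2 d s y) := by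
    simp only [ip, Complex.sub_re, Complex.sub_im]
    ring
  rw [h2, ip_rf' η1 η2 d s hs] at h1
  have h3 := neg_abs_le (ip (us η1 η2 s) x - -ip (us η1 η2 s) y)
  linarith

end

end Pool.Agent.H60K.H38
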