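import Pool.Agent.Helper38_AEU3.KerA

/-! KER, part B: the explicit kernel and its properties. -/

set_option autoImplicit false
set_option linter.unusedSimpArgs false
set_option linter.unusedVariables false

namespace Pool.Agent.H60K.H38

open MeasureTheory Complex Filter Topology ProbabilityTheory Pool.Agent.H16Iso Pool.Agent.H62T
  Pool.Agent.H16F Pool.Agent.H38KL

/-! ### Mean value property: linear combinations, superpositions -/

lemma MVP.mono {κ : ℝ} {W W' : Set ℂ} (h : W' ⊆ W) {v : ℂ → ℝ} (hv : MVP κ W v) :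
    MVP κ W' v := fun z ρ hρ hb => hv z ρ hρ (hb.trans h)

lemma circle_mem (z : ℂ) {ρ : ℝ} (hρ : 0 < ρ) (φ : ℝ) :
    z + ρ * exp (φ * I) ∈ Metric.closedBall z ρ := by
  rw [Metric.mem_closedBall, dist_eq_norm]
  have : z + ρ * exp (φ * I) - z = ρ * exp (φ * I) := by ring
  rw [this, norm_mul, Complex.norm_exp_ofReal_mul_I, Complex.norm_real, Real.norm_eq_abs,
    abs_of_pos hρ, mul_one]

lemma MVP.congr {κ : ℝ} {W : Set ℂ} {v w : ℂ → ℝ} (h : ∀ z ∈ W, v z = w z) (hv : MVP κ W v) :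
    MVP κ W w := by
  intro z ρ hρ hb
  obtain ⟨h1, h2⟩ := hv z ρ hρ hb
  have e : ∀ φ : ℝ, v (z + ρ * exp (φ * I)) = w (z + ρ * exp (φ * I)) := fun φ =>
    h _ (hb (circle_mem z hρ φ))
  simp only [e] at h1 h2
  rw [h z (hb (Metric.mem_closedBall_self hρ.le))] at h2
  exact ⟨h1, h2⟩

lemma MVP.lin {κ : ℝ} {W : Set ℂ} {v w : ℂ → ℝ} (a b : ℝ) (hv : MVP κ W v) (hw : MVP κ W w) :
    MVP κ W (fun z => a * v z + b * w z) := by
  intro z ρ hρ hb
  obtain ⟨h1, h2⟩ := hv z ρ hρ hb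
  obtain ⟨h3, h4⟩ := hw z ρ hρ hb
  refine ⟨(h1.const_mul a).add (h3.const_mul b), ?_⟩
  rw [intervalIntegral.integral_add (h1.const_mul a) (h3.const_mul b),
    intervalIntegral.integral_const_mul, intervalIntegral.integral_const_mul, h2, h4]
  ring

lemma MVP.param {κ : ℝ} {W : Set ℂ} {f : ℝ → ℂ → ℝ} (hm : Measurable (Function.uncurry f))
    (hf : ∀ τ : ℝ, 0 < τ → MVP κ W (f τ))
    (hd : ∀ K : Set ℂ, IsCompact K → K ⊆ W → ∃ g : ℝ → ℝ, IntegrableOn g (Set.Ioi 0) ∧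
      ∀ τ : ℝ, 0 < τ → ∀ z ∈ K, |f τ z| ≤ g τ) :
    MVP κ W (fun z => ∫ τ in Set.Ioi (0 : ℝ), f τ z) := by
  intro z ρ hρ hb
  obtain ⟨g, hg, hfg⟩ := hd _ (isCompact_closedBall z ρ) hb
  have h2π : (0 : ℝ) ≤ 2 * Real.pi := by positivity
  have hcm : Measurable fun φ : ℝ => z + (ρ : ℂ) * exp (φ * I) := by fun_prop
  have hprod : Integrable (fun p : ℝ × ℝ => f p.2 (z + ρ * exp (p.1 * I)))
      ((volume.restrict (Set.Ioc 0 (2 * Real.pi))).prod (volume.restrict (Set.Ioi 0))) := by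
    have hmm : Measurable (fun p : ℝ × ℝ => f p.2 (z + ρ * exp (p.1 * I))) :=
      hm.comp (measurable_snd.prodMk (hcm.comp measurable_fst))
    have hbd : Integrable (fun p : ℝ × ℝ => (1 : ℝ) * g p.2)
        ((volume.restrict (Set.Ioc 0 (2 * Real.pi))).prod (volume.restrict (Set.Ioi 0))) := by
      refine Integrable.mul_prod (f := fun _ : ℝ => (1 : ℝ)) ?_ hg
      exact integrable_const 1
    refine hbd.mono' hmm.aestronglyMeasurable ?_
    rw [Measure.prod_restrict]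
    refine (ae_restrict_iff' (measurableSet_Ioc.prod measurableSet_Ioi)).mpr
      (Eventually.of_forall fun p hp => ?_)
    rw [Real.norm_eq_abs, one_mul]
    exact hfg p.2 hp.2 _ (circle_mem z hρ p.1)
  refine ⟨?_, ?_⟩
  · rw [intervalIntegrable_iff_integrableOn_Ioc_of_le h2π]
    exact hprod.integral_prod_left
  · rw [intervalIntegral.integral_of_le h2π, integral_integral_swap hprod]
    have e : ∀ τ ∈ Set.Ioi (0 : ℝ), ∫ φ in Set.Ioc 0 (2 * Real.pi), f τ (z + ρ * exp (φ * I)) =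
        2 * Real.pi * I0 (κ * ρ) * f τ z := by
      intro τ hτ
      rw [← intervalIntegral.integral_of_le h2π]
      exact (hf τ hτ z ρ hρ hb).2
    rw [setIntegral_congr_fun measurableSet_Ioi e, integral_const_mul]

/-! ### Joint measurability of the plane waves -/

lemma pw_meas : Measurable (fun p : ℝ × ℂ => pw p.1 p.2) := by
  unfold pw
  refine Measurable.const_mul ?_ _
  have h : Measurable (fun p : (ℝ × ℂ) × ℝ => Real.exp (-(p.1.2.re * Real.cosh p.2)) *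
      Real.cos (p.1.2.im * Real.sinh p.2 - p.1.1 * p.2)) := by fun_prop
  exact (h.stronglyMeasurable.integral_prod_right' (ν := volume)).measurable

/-! ### The explicit kernel -/

/-- twice `Kit τ (κ |z|) sinh (τ θ)`, `θ` = the angle from side 2 -/
noncomputable def Vf (η1 η2 κ : ℝ) (τ : ℝ) (z : ℂ) : ℝ :=
  Real.exp (τ * ((η1 + η2) / 2)) *
      pw τ ((κ : ℂ) * exp (((-((η1 - η2) / 2) : ℝ) : ℂ) * I) * z) +
    (-Real.exp (-(τ * ((η1 + η2) / 2)))) *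
      pw (-τ) ((κ : ℂ) * exp (((-((η1 - η2) / 2) : ℝ) : ℂ) * I) * z)

/-- the weight -/
noncomputable def qf (η1 η2 κ r' ψ' : ℝ) (τ : ℝ) : ℝ :=
  Kit τ (κ * r') * Real.sinh (τ * (ψ' + η2)) *
    (Real.sinh ((Real.pi - (η1 + η2)) * τ) / Real.sinh ((η1 + η2) * τ))

/-- the explicit kernel -/
noncomputable def Vk (η1 η2 κ r' ψ' : ℝ) (z : ℂ) : ℝ :=
  ∫ τ in Set.Ioi (0 : ℝ), 1 / Real.pi ^ 2 * qf η1 η2 κ r' ψ' τ * Vf η1 η2 κ τ z

lemma Vf_polar (hS : KtsStatement) {η1 η2 κ r ψ : ℝ} (h3 : η1 + η2 < Real.pi) (hκ : 0 < κ)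
    (hr : 0 < r) (ha : -η2 < ψ) (hb : ψ < η1) (τ : ℝ) :
    Vf η1 η2 κ τ (r * exp (ψ * I)) = 2 * Kit τ (κ * r) * Real.sinh (τ * (ψ + η2)) := by
  have hx : |ψ - (η1 - η2) / 2| < Real.pi / 2 := by
    rw [abs_lt]
    constructor <;> linarith
  have e : (κ : ℂ) * exp (((-((η1 - η2) / 2) : ℝ) : ℂ) * I) * (r * exp (ψ * I)) =
      ((κ * r : ℝ) : ℂ) * exp (((ψ - (η1 - η2) / 2 : ℝ) : ℂ) * I) := by
    have : exp (((ψ - (η1 - η2) / 2 : ℝ) : ℂ) * I) =
        exp (((-((η1 - η2) / 2) : ℝ) : ℂ) * I) * exp (ψ * I) := by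
      rw [← Complex.exp_add]
      congr 1
      push_cast
      ring
    rw [this]
    push_cast
    ring
  unfold Vf
  rw [e, hS.2.1 τ (κ * r) _ (mul_pos hκ hr) hx, hS.2.1 (-τ) (κ * r) _ (mul_pos hκ hr) hx,
    Kit_neg, Real.sinh_eq]
  have e1 : Real.exp (τ * ((η1 + η2) / 2)) * (Kit τ (κ * r) *
      Real.exp (τ * (ψ - (η1 - η2) / 2))) = Kit τ (κ * r) * Real.exp (τ * (ψ + η2)) := by
    rw [mul_left_comm, ← Real.exp_add]
    congr 2
    ring
  have e2 : Real.exp (-(τ * ((η1 + η2) / 2))) * (Kit τ (κ * r) *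
      Real.exp (-τ * (ψ - (η1 - η2) / 2))) = Kit τ (κ * r) * Real.exp (-(τ * (ψ + η2))) := by
    rw [mul_left_comm, ← Real.exp_add]
    congr 2
    ring
  rw [e1, neg_mul, e2]
  ring

lemma Vf_meas (η1 η2 κ : ℝ) : Measurable (fun p : ℝ × ℂ => Vf η1 η2 κ p.1 p.2) := by
  unfold Vf
  have h1 : Measurable (fun p : ℝ × ℂ => pw p.1
      ((κ : ℂ) * exp (((-((η1 - η2) / 2) : ℝ) : ℂ) * I) * p.2)) :=
    pw_meas.comp (by fun_prop : Measurable fun p : ℝ × ℂ =>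
      (p.1, (κ : ℂ) * exp (((-((η1 - η2) / 2) : ℝ) : ℂ) * I) * p.2))
  have h2 : Measurable (fun p : ℝ × ℂ => pw (-p.1)
      ((κ : ℂ) * exp (((-((η1 - η2) / 2) : ℝ) : ℂ) * I) * p.2)) :=
    pw_meas.comp (by fun_prop : Measurable fun p : ℝ × ℂ =>
      (-p.1, (κ : ℂ) * exp (((-((η1 - η2) / 2) : ℝ) : ℂ) * I) * p.2))
  exact ((by fun_prop : Measurable fun p : ℝ × ℂ => Real.exp (p.1 * ((η1 + η2) / 2))).mul h1).add
    ((by fun_prop : Measurable fun p : ℝ × ℂ => -Real.exp (-(p.1 * ((η1 + η2) / 2)))).mul h2)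

lemma qf_meas (hB : KtbStatement) (η1 η2 κ r' ψ' : ℝ) :
    Measurable (qf η1 η2 κ r' ψ') := by
  unfold qf
  have h1 : Measurable fun τ : ℝ => Kit τ (κ * r') :=
    hB.2.2.2.2.2.2.2.2.1.comp (by fun_prop : Measurable fun τ : ℝ => (τ, κ * r'))
  have h2 : Measurable fun τ : ℝ =>
      Real.sinh ((Real.pi - (η1 + η2)) * τ) / Real.sinh ((η1 + η2) * τ) := by
    fun_prop
  exact (h1.mul (by fun_prop)).mul h2

lemma F_meas (hB : KtbStatement) (η1 η2 κ r' ψ' : ℝ) :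
    Measurable (Function.uncurry fun (τ : ℝ) (z : ℂ) =>
      1 / Real.pi ^ 2 * qf η1 η2 κ r' ψ' τ * Vf η1 η2 κ τ z) := by
  have h1 : Measurable fun p : ℝ × ℂ => qf η1 η2 κ r' ψ' p.1 :=
    (qf_meas hB η1 η2 κ r' ψ').comp measurable_fst
  exact (h1.const_mul _).mul (Vf_meas η1 η2 κ)

lemma Vk_meas (hB : KtbStatement) (η1 η2 κ r' ψ' : ℝ) : Measurable (Vk η1 η2 κ r' ψ') := by
  unfold Vk
  have h := (F_meas hB η1 η2 κ r' ψ').comp (measurable_swap (α := ℂ) (β := ℝ))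
  exact (h.stronglyMeasurable.integral_prod_right' (ν := volume.restrict (Set.Ioi 0))).measurable

/-! ### Elementary inequalities -/

lemma sinh_convex : ConvexOn ℝ (Set.Ici (0 : ℝ)) Real.sinh := by
  refine convexOn_of_deriv2_nonneg (convex_Ici 0) Real.continuous_sinh.continuousOn
    Real.differentiable_sinh.differentiableOn ?_ ?_
  · rw [Real.deriv_sinh]
    exact Real.differentiable_cosh.differentiableOn
  · intro x hx
    rw [interior_Ici] at hx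
    have : (deriv^[2] Real.sinh) x = Real.sinh x := by
      simp only [Function.iterate_succ, Function.iterate_zero, Function.comp, id]
      rw [Real.deriv_sinh, Real.deriv_cosh]
    rw [this]
    exact Real.sinh_nonneg_iff.mpr (le_of_lt hx)

lemma sinh_le_frac {a b : ℝ} (ha : 0 ≤ a) (hab : a ≤ b) (hb : 0 < b) :
    Real.sinh a ≤ a / b * Real.sinh b := by
  have q1 : 0 ≤ 1 - a / b := by
    have : a / b ≤ 1 := (div_le_one hb).mpr hab
    linarith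
  have q2 : 0 ≤ a / b := div_nonneg ha hb.le
  have h := sinh_convex.2 (Set.mem_Ici.mpr (le_refl (0 : ℝ))) (Set.mem_Ici.mpr hb.le) q1 q2
    (by ring)
  simp only [smul_eq_mul, mul_zero, Real.sinh_zero, zero_add] at h
  have e : a / b * b = a := by field_simp
  rwa [e] at h

lemma sinh_le_exp (x : ℝ) : Real.sinh x ≤ Real.exp x := by
  rw [Real.sinh_eq]
  have := Real.exp_pos x
  have := Real.exp_pos (-x)
  linarith

/-- decay exponent -/
noncomputable def lam0 (η1 ψ' : ℝ) : ℝ := (η1 - ψ') / 2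

/-- angle of the contour -/
noncomputable def ph0 (η1 ψ' : ℝ) : ℝ := Real.pi / 2 - (η1 - ψ') / 4

/-- the basic bound -/
lemma Fbound (hS : KtsStatement) (hB : KtbStatement) {η1 η2 κ r r' ψ ψ' : ℝ} (h1 : 0 < η1)
    (h2 : 0 < η2) (h3 : η1 + η2 < Real.pi) (hκ : 0 < κ) (hr : 0 < r) (hr' : 0 < r')
    (ha : -η2 < ψ) (hb : ψ < η1) (ha' : -η2 < ψ') (hb' : ψ' < η1) {τ : ℝ} (hτ : 0 < τ) :
    |qf η1 η2 κ r' ψ' τ * Vf η1 η2 κ τ (r * exp (ψ * I))| ≤
      2 * ((ψ + η2) / (η1 + η2)) * (|Kit τ (κ * r)| * (Real.exp ((ph0 η1 ψ' - lam0 η1 ψ') * τ) *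
        Kit 0 (κ * r' * Real.cos (ph0 η1 ψ')))) := by
  have hpi := Real.pi_pos
  rw [Vf_polar hS h3 hκ hr ha hb]
  unfold qf
  have hal : 0 < η1 + η2 := by linarith
  have s1 : 0 < Real.sinh ((η1 + η2) * τ) := Real.sinh_pos_iff.mpr (by positivity)
  have s2 : 0 ≤ Real.sinh ((Real.pi - (η1 + η2)) * τ) :=
    Real.sinh_nonneg_iff.mpr (mul_nonneg (by linarith) hτ.le)
  have s3 : 0 ≤ Real.sinh (τ * (ψ + η2)) := Real.sinh_nonneg_iff.mpr
    (mul_nonneg hτ.le (by linarith))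
  have s4 : 0 ≤ Real.sinh (τ * (ψ' + η2)) := Real.sinh_nonneg_iff.mpr
    (mul_nonneg hτ.le (by linarith))
  have e1 : |Kit τ (κ * r') * Real.sinh (τ * (ψ' + η2)) *
      (Real.sinh ((Real.pi - (η1 + η2)) * τ) / Real.sinh ((η1 + η2) * τ)) *
      (2 * Kit τ (κ * r) * Real.sinh (τ * (ψ + η2)))| =
      2 * (|Kit τ (κ * r)| * (|Kit τ (κ * r')| * (Real.sinh (τ * (ψ' + η2)) *
        (Real.sinh ((Real.pi - (η1 + η2)) * τ) / Real.sinh ((η1 + η2) * τ) *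
          Real.sinh (τ * (ψ + η2)))))) := by
    simp only [abs_mul, abs_div, abs_of_nonneg s2, abs_of_nonneg s3, abs_of_nonneg s4,
      abs_of_pos s1, abs_two]
    ring
  rw [e1]
  have f1 : Real.sinh ((Real.pi - (η1 + η2)) * τ) / Real.sinh ((η1 + η2) * τ) *
      Real.sinh (τ * (ψ + η2)) ≤ (ψ + η2) / (η1 + η2) * Real.exp ((Real.pi - (η1 + η2)) * τ) := by
    have g1 : Real.sinh (τ * (ψ + η2)) ≤ (ψ + η2) / (η1 + η2) * Real.sinh ((η1 + η2) * τ) := by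
      have := sinh_le_frac (a := τ * (ψ + η2)) (b := (η1 + η2) * τ)
        (mul_nonneg hτ.le (by linarith)) (by nlinarith) (by positivity)
      have e : τ * (ψ + η2) / ((η1 + η2) * τ) = (ψ + η2) / (η1 + η2) := by field_simp
      rwa [e] at this
    have g2 := sinh_le_exp ((Real.pi - (η1 + η2)) * τ)
    have g3 : 0 ≤ (ψ + η2) / (η1 + η2) := div_nonneg (by linarith) hal.le
    calc Real.sinh ((Real.pi - (η1 + η2)) * τ) / Real.sinh ((η1 + η2) * τ) *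
          Real.sinh (τ * (ψ + η2))
        ≤ Real.sinh ((Real.pi - (η1 + η2)) * τ) / Real.sinh ((η1 + η2) * τ) *
          ((ψ + η2) / (η1 + η2) * Real.sinh ((η1 + η2) * τ)) := by gcongr
      _ = (ψ + η2) / (η1 + η2) * Real.sinh ((Real.pi - (η1 + η2)) * τ) := by
          field_simp
      _ ≤ _ := by gcongr
  have f2 := sinh_le_exp (τ * (ψ' + η2))
  have hph1 : 0 ≤ ph0 η1 ψ' := by unfold ph0; linarith
  have hph2 : ph0 η1 ψ' < Real.pi / 2 := by unfold ph0; linarith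
  have f3 := hS.1 τ (κ * r') (ph0 η1 ψ') (by positivity) hτ.le hph1 hph2
  have hcos : 0 < Real.cos (ph0 η1 ψ') := Real.cos_pos_of_mem_Ioo ⟨by linarith, hph2⟩
  have hK : 0 < Kit 0 (κ * r' * Real.cos (ph0 η1 ψ')) := hB.2.2.2.1 _ (by positivity)
  have g3 : 0 ≤ (ψ + η2) / (η1 + η2) := div_nonneg (by linarith) hal.le
  calc 2 * (|Kit τ (κ * r)| * (|Kit τ (κ * r')| * (Real.sinh (τ * (ψ' + η2)) *
        (Real.sinh ((Real.pi - (η1 + η2)) * τ) / Real.sinh ((η1 + η2) * τ) *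
          Real.sinh (τ * (ψ + η2))))))
      ≤ 2 * (|Kit τ (κ * r)| * ((Real.exp (-(ph0 η1 ψ' * τ)) *
          Kit 0 (κ * r' * Real.cos (ph0 η1 ψ'))) * (Real.exp (τ * (ψ' + η2)) *
          ((ψ + η2) / (η1 + η2) * Real.exp ((Real.pi - (η1 + η2)) * τ))))) := by
        gcongr
    _ = 2 * ((ψ + η2) / (η1 + η2)) * (|Kit τ (κ * r)| * ((Real.exp (-(ph0 η1 ψ' * τ)) *
          Real.exp (τ * (ψ' + η2)) * Real.exp ((Real.pi - (η1 + η2)) * τ)) *
          Kit 0 (κ * r' * Real.cos (ph0 η1 ψ')))) := by ring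
    _ = _ := by
        rw [← Real.exp_add, ← Real.exp_add]
        congr 5
        unfold ph0 lam0
        ring

/-- the bound with the contour shift also in the first variable -/
lemma Fbound2 (hS : KtsStatement) (hB : KtbStatement) {η1 η2 κ r r' ψ ψ' : ℝ} (h1 : 0 < η1)
    (h2 : 0 < η2) (h3 : η1 + η2 < Real.pi) (hκ : 0 < κ) (hr : 0 < r) (hr' : 0 < r')
    (ha : -η2 < ψ) (hb : ψ < η1) (ha' : -η2 < ψ') (hb' : ψ' < η1) {τ : ℝ} (hτ : 0 < τ) :
    |qf η1 η2 κ r' ψ' τ * Vf η1 η2 κ τ (r * exp (ψ * I))| ≤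
      2 * ((ψ + η2) / (η1 + η2)) * (Kit 0 (κ * r * Real.cos (ph0 η1 ψ')) *
        Kit 0 (κ * r' * Real.cos (ph0 η1 ψ'))) * Real.exp (-(lam0 η1 ψ' * τ)) := by
  have hpi := Real.pi_pos
  have hal : 0 < η1 + η2 := by linarith
  refine (Fbound hS hB h1 h2 h3 hκ hr hr' ha hb ha' hb' hτ).trans ?_
  have hph1 : 0 ≤ ph0 η1 ψ' := by unfold ph0; linarith
  have hph2 : ph0 η1 ψ' < Real.pi / 2 := by unfold ph0; linarith
  have f3 := hS.1 τ (κ * r) (ph0 η1 ψ') (by positivity) hτ.le hph1 hph2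
  have hcos : 0 < Real.cos (ph0 η1 ψ') := Real.cos_pos_of_mem_Ioo ⟨by linarith, hph2⟩
  have hK : 0 < Kit 0 (κ * r' * Real.cos (ph0 η1 ψ')) := hB.2.2.2.1 _ (by positivity)
  have g3 : 0 ≤ (ψ + η2) / (η1 + η2) := div_nonneg (by linarith) hal.le
  calc 2 * ((ψ + η2) / (η1 + η2)) * (|Kit τ (κ * r)| *
        (Real.exp ((ph0 η1 ψ' - lam0 η1 ψ') * τ) * Kit 0 (κ * r' * Real.cos (ph0 η1 ψ'))))
      ≤ 2 * ((ψ + η2) / (η1 + η2)) * ((Real.exp (-(ph0 η1 ψ' * τ)) *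
          Kit 0 (κ * r * Real.cos (ph0 η1 ψ'))) *
        (Real.exp ((ph0 η1 ψ' - lam0 η1 ψ') * τ) * Kit 0 (κ * r' * Real.cos (ph0 η1 ψ')))) := by
        gcongr
    _ = 2 * ((ψ + η2) / (η1 + η2)) * (Kit 0 (κ * r * Real.cos (ph0 η1 ψ')) *
        Kit 0 (κ * r' * Real.cos (ph0 η1 ψ'))) * (Real.exp (-(ph0 η1 ψ' * τ)) *
          Real.exp ((ph0 η1 ψ' - lam0 η1 ψ') * τ)) := by ring
    _ = _ := by
        rw [← Real.exp_add]
        congr 2
        ring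

lemma exp_intg {l : ℝ} (hl : 0 < l) (C : ℝ) :
    IntegrableOn (fun τ : ℝ => C * Real.exp (-(l * τ))) (Set.Ioi 0) := by
  have := (integrableOn_exp_mul_Ioi (a := -l) (by linarith) 0).const_mul C
  refine this.congr (Eventually.of_forall fun τ => ?_)
  simp only [neg_mul]

lemma exp_int {l : ℝ} (hl : 0 < l) (C : ℝ) :
    ∫ τ in Set.Ioi (0 : ℝ), C * Real.exp (-(l * τ)) = C / l := by
  rw [integral_const_mul]
  have : ∀ τ : ℝ, Real.exp (-(l * τ)) = Real.exp (-l * τ) := fun τ => by congr 1; ring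
  simp only [this]
  rw [integral_exp_mul_Ioi (by linarith)]
  simp
  ring

lemma F_intg (hS : KtsStatement) (hB : KtbStatement) {η1 η2 κ r r' ψ ψ' : ℝ} (h1 : 0 < η1)
    (h2 : 0 < η2) (h3 : η1 + η2 < Real.pi) (hκ : 0 < κ) (hr : 0 < r) (hr' : 0 < r')
    (ha : -η2 < ψ) (hb : ψ < η1) (ha' : -η2 < ψ') (hb' : ψ' < η1) :
    IntegrableOn (fun τ => qf η1 η2 κ r' ψ' τ * Vf η1 η2 κ τ (r * exp (ψ * I)))
      (Set.Ioi 0) := by
  have hl : 0 < lam0 η1 ψ' := by unfold lam0; linarith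
  have hbd := exp_intg hl (2 * ((ψ + η2) / (η1 + η2)) * (Kit 0 (κ * r * Real.cos (ph0 η1 ψ')) *
        Kit 0 (κ * r' * Real.cos (ph0 η1 ψ'))))
  refine hbd.mono' ?_ ?_
  · exact ((qf_meas hB η1 η2 κ r' ψ').mul ((Vf_meas η1 η2 κ).comp
      (measurable_prodMk_right (y := (r * exp (ψ * I) : ℂ))))).aestronglyMeasurable
  · refine (ae_restrict_iff' measurableSet_Ioi).mpr (Eventually.of_forall fun τ hτ => ?_)
    rw [Real.norm_eq_abs]
    exact Fbound2 hS hB h1 h2 h3 hκ hr hr' ha hb ha' hb' hτ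

/-- the value of the explicit kernel -/
lemma Vk_polar (hS : KtsStatement) {η1 η2 κ r r' ψ ψ' : ℝ} (h3 : η1 + η2 < Real.pi) (hκ : 0 < κ)
    (hr : 0 < r) (ha : -η2 < ψ) (hb : ψ < η1) :
    Vk η1 η2 κ r' ψ' (r * exp (ψ * I)) = 2 / Real.pi ^ 2 * ∫ τ in Set.Ioi (0 : ℝ),
      Kit τ (κ * r) * Kit τ (κ * r') * Real.sinh (τ * (ψ + η2)) * Real.sinh (τ * (ψ' + η2)) *
        (Real.sinh ((Real.pi - (η1 + η2)) * τ) / Real.sinh ((η1 + η2) * τ)) := by
  unfold Vk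
  rw [← integral_const_mul]
  refine setIntegral_congr_fun measurableSet_Ioi fun τ _ => ?_
  rw [Vf_polar hS h3 hκ hr ha hb]
  unfold qf
  ring

lemma Vk_bound (hS : KtsStatement) (hB : KtbStatement) {η1 η2 κ r r' ψ ψ' : ℝ} (h1 : 0 < η1)
    (h2 : 0 < η2) (h3 : η1 + η2 < Real.pi) (hκ : 0 < κ) (hr : 0 < r) (hr' : 0 < r')
    (ha : -η2 < ψ) (hb : ψ < η1) (ha' : -η2 < ψ') (hb' : ψ' < η1) :
    |Vk η1 η2 κ r' ψ' (r * exp (ψ * I))| ≤ 2 * ((ψ + η2) / (η1 + η2)) *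
      (Kit 0 (κ * r * Real.cos (ph0 η1 ψ')) * Kit 0 (κ * r' * Real.cos (ph0 η1 ψ'))) /
        lam0 η1 ψ' := by
  have hl : 0 < lam0 η1 ψ' := by unfold lam0; linarith
  have hpi2 : 1 / Real.pi ^ 2 ≤ 1 := by
    rw [div_le_one (by positivity)]
    nlinarith [Real.pi_gt_three]
  unfold Vk
  rw [← exp_int hl]
  refine (abs_integral_le_integral_abs).trans ?_
  refine setIntegral_mono_on ?_ (exp_intg hl _) measurableSet_Ioi fun τ hτ => ?_
  · have := ((F_intg hS hB h1 h2 h3 hκ hr hr' ha hb ha' hb').const_mul (1 / Real.pi ^ 2)).abs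
    refine this.congr (Eventually.of_forall fun τ => ?_)
    simp only
    congr 1
    ring
  · have hF := Fbound2 hS hB h1 h2 h3 hκ hr hr' ha hb ha' hb' hτ
    rw [mul_assoc, abs_mul, abs_of_pos (by positivity : 0 < 1 / Real.pi ^ 2)]
    calc 1 / Real.pi ^ 2 * |qf η1 η2 κ r' ψ' τ * Vf η1 η2 κ τ (r * exp (ψ * I))|
        ≤ 1 * |qf η1 η2 κ r' ψ' τ * Vf η1 η2 κ τ (r * exp (ψ * I))| := by gcongr
      _ ≤ _ := by rw [one_mul]; exact hF

end Pool.Agent.H60K.H38
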