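import Pool.Agent.Helper38_AEU3.KerB

/-! KER, part C: the explicit kernel and the barrier have the local smoothing property. -/

set_option autoImplicit false
set_option linter.unusedSimpArgs false
set_option linter.unusedVariables false

namespace Pool.Agent.H60K.H38

open MeasureTheory Complex Filter Topology ProbabilityTheory Pool.Agent.H16Iso Pool.Agent.H62T
  Pool.Agent.H16F Pool.Agent.H38KL

/-- compact subsets of the wedge stay away from the vertex -/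
lemma compact_away {η1 η2 : ℝ} {K : Set ℂ} (hK : IsCompact K) (hs : K ⊆ Wd η1 η2) :
    ∃ r0 : ℝ, 0 < r0 ∧ ∀ z ∈ K, r0 ≤ ‖z‖ := by
  rcases K.eq_empty_or_nonempty with rfl | hne
  · exact ⟨1, one_pos, by simp⟩
  · obtain ⟨z0, hz0, hmin⟩ := hK.exists_isMinOn hne continuous_norm.continuousOn
    refine ⟨‖z0‖, norm_pos_iff.mpr ?_, fun z hz => hmin hz⟩
    rintro rfl
    have := (hs hz0).1
    simp [ip] at this

lemma norm_polar {r ψ : ℝ} (hr : 0 < r) : ‖(r * exp (ψ * I) : ℂ)‖ = r := by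
  rw [norm_mul, Complex.norm_exp_ofReal_mul_I, Complex.norm_real, Real.norm_eq_abs,
    abs_of_pos hr, mul_one]

/-- the rotation of the wedge into the right half-plane -/
noncomputable def ct (η1 η2 : ℝ) : ℂ := exp (((-((η1 - η2) / 2) : ℝ) : ℂ) * I)

lemma ct_norm (η1 η2 : ℝ) : ‖ct η1 η2‖ = 1 := Complex.norm_exp_ofReal_mul_I _

lemma ct_polar (η1 η2 κ r ψ : ℝ) : (κ : ℂ) * ct η1 η2 * (r * exp (ψ * I)) =
    ((κ * r : ℝ) : ℂ) * exp (((ψ - (η1 - η2) / 2 : ℝ) : ℂ) * I) := by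
  have : exp (((ψ - (η1 - η2) / 2 : ℝ) : ℂ) * I) = ct η1 η2 * exp (ψ * I) := by
    unfold ct
    rw [← Complex.exp_add]
    congr 1
    push_cast
    ring
  rw [this]
  push_cast
  ring

lemma Wd_sub {η1 η2 κ : ℝ} (h1 : 0 < η1) (h2 : 0 < η2) (h3 : η1 + η2 < Real.pi) (hκ : 0 < κ) :
    Wd η1 η2 ⊆ {z | (κ : ℂ) * ct η1 η2 * z ∈ {z : ℂ | 0 < z.re}} := by
  intro z hz
  obtain ⟨r, ψ, hr, ha, hb, rfl⟩ := Wd_polar h1 h2 h3 hz
  show 0 < ((κ : ℂ) * ct η1 η2 * (r * exp (ψ * I))).re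
  rw [ct_polar, Complex.re_ofReal_mul, Complex.exp_ofReal_mul_I_re]
  exact mul_pos (mul_pos hκ hr) (Real.cos_pos_of_mem_Ioo ⟨by linarith, by linarith⟩)

lemma pw_mvp (hM : MvpStatement) {η1 η2 κ : ℝ} (h1 : 0 < η1) (h2 : 0 < η2)
    (h3 : η1 + η2 < Real.pi) (hκ : 0 < κ) (τ : ℝ) :
    MVP κ (Wd η1 η2) (fun z => pw τ ((κ : ℂ) * ct η1 η2 * z)) :=
  MVP.mono (Wd_sub h1 h2 h3 hκ) (hM.2.1 κ _ _ _ hκ (ct_norm η1 η2) (hM.1 τ))

lemma Vf_mvp (hM : MvpStatement) {η1 η2 κ : ℝ} (h1 : 0 < η1) (h2 : 0 < η2)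
    (h3 : η1 + η2 < Real.pi) (hκ : 0 < κ) (τ c : ℝ) :
    MVP κ (Wd η1 η2) (fun z => c * Vf η1 η2 κ τ z) := by
  have h := MVP.lin (c * Real.exp (τ * ((η1 + η2) / 2))) (c * -Real.exp (-(τ * ((η1 + η2) / 2))))
    (pw_mvp hM h1 h2 h3 hκ τ) (pw_mvp hM h1 h2 h3 hκ (-τ))
  refine MVP.congr (fun z _ => ?_) h
  unfold Vf ct
  ring

lemma frac_le_one {η1 η2 ψ : ℝ} (h1 : 0 < η1) (h2 : 0 < η2) (hb : ψ < η1) :
    (ψ + η2) / (η1 + η2) ≤ 1 := by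
  rw [div_le_one (by linarith)]
  linarith

section

variable {η1 η2 κ r' ψ' : ℝ}

lemma cos_ph0 (hb' : ψ' < η1) (ha' : -η2 < ψ') (h3 : η1 + η2 < Real.pi) :
    0 < Real.cos (ph0 η1 ψ') := by
  have := Real.pi_pos
  refine Real.cos_pos_of_mem_Ioo ⟨?_, ?_⟩ <;> unfold ph0 <;> linarith

lemma F_le_away (hS : KtsStatement) (hB : KtbStatement) (h1 : 0 < η1)
    (h2 : 0 < η2) (h3 : η1 + η2 < Real.pi) (hκ : 0 < κ) (hr' : 0 < r')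
    (ha' : -η2 < ψ') (hb' : ψ' < η1) {r0 : ℝ} (hr0 : 0 < r0) {z : ℂ} (hz : z ∈ Wd η1 η2)
    (hn : r0 ≤ ‖z‖) {τ : ℝ} (hτ : 0 < τ) :
    |1 / Real.pi ^ 2 * qf η1 η2 κ r' ψ' τ * Vf η1 η2 κ τ z| ≤
      2 * (Kit 0 (κ * r0 * Real.cos (ph0 η1 ψ')) *
        Kit 0 (κ * r' * Real.cos (ph0 η1 ψ'))) * Real.exp (-(lam0 η1 ψ' * τ)) := by
  obtain ⟨r, ψ, hr, ha, hb, rfl⟩ := Wd_polar h1 h2 h3 hz
  rw [norm_polar hr] at hn
  have hF := Fbound2 hS hB h1 h2 h3 hκ hr hr' ha hb ha' hb' hτ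
  have hpi2 : 1 / Real.pi ^ 2 ≤ 1 := by
    rw [div_le_one (by positivity)]
    nlinarith [Real.pi_gt_three]
  have hc := cos_ph0 hb' ha' h3
  have hK0 : Kit 0 (κ * r * Real.cos (ph0 η1 ψ')) ≤ Kit 0 (κ * r0 * Real.cos (ph0 η1 ψ')) :=
    hB.2.2.2.2.1 (Set.mem_Ioi.mpr (by positivity)) (Set.mem_Ioi.mpr (by positivity))
      (by gcongr)
  have hp1 : 0 < Kit 0 (κ * r * Real.cos (ph0 η1 ψ')) := hB.2.2.2.1 _ (by positivity)
  have hp2 : 0 < Kit 0 (κ * r' * Real.cos (ph0 η1 ψ')) := hB.2.2.2.1 _ (by positivity)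
  have hf := frac_le_one h1 h2 hb
  have hf0 : 0 ≤ (ψ + η2) / (η1 + η2) := div_nonneg (by linarith) (by linarith)
  rw [mul_assoc, abs_mul, abs_of_pos (by positivity : 0 < 1 / Real.pi ^ 2)]
  calc 1 / Real.pi ^ 2 * |qf η1 η2 κ r' ψ' τ * Vf η1 η2 κ τ (r * exp (ψ * I))|
      ≤ 1 * |qf η1 η2 κ r' ψ' τ * Vf η1 η2 κ τ (r * exp (ψ * I))| := by gcongr
    _ ≤ 2 * ((ψ + η2) / (η1 + η2)) * (Kit 0 (κ * r * Real.cos (ph0 η1 ψ')) *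
        Kit 0 (κ * r' * Real.cos (ph0 η1 ψ'))) * Real.exp (-(lam0 η1 ψ' * τ)) := by
          rw [one_mul]; exact hF
    _ ≤ 2 * 1 * (Kit 0 (κ * r0 * Real.cos (ph0 η1 ψ')) *
        Kit 0 (κ * r' * Real.cos (ph0 η1 ψ'))) * Real.exp (-(lam0 η1 ψ' * τ)) := by gcongr
    _ = _ := by ring

lemma Vk_le_away (hS : KtsStatement) (hB : KtbStatement) (h1 : 0 < η1)
    (h2 : 0 < η2) (h3 : η1 + η2 < Real.pi) (hκ : 0 < κ) (hr' : 0 < r')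
    (ha' : -η2 < ψ') (hb' : ψ' < η1) {r0 : ℝ} (hr0 : 0 < r0) {z : ℂ} (hz : z ∈ Wd η1 η2)
    (hn : r0 ≤ ‖z‖) :
    |Vk η1 η2 κ r' ψ' z| ≤
      2 * (Kit 0 (κ * r0 * Real.cos (ph0 η1 ψ')) *
        Kit 0 (κ * r' * Real.cos (ph0 η1 ψ'))) / lam0 η1 ψ' := by
  have hl : 0 < lam0 η1 ψ' := by unfold lam0; linarith
  have hmeas : Measurable fun τ : ℝ => 1 / Real.pi ^ 2 * qf η1 η2 κ r' ψ' τ * Vf η1 η2 κ τ z :=
    ((qf_meas hB η1 η2 κ r' ψ').const_mul _).mul ((Vf_meas η1 η2 κ).comp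
      (measurable_prodMk_right (y := z)))
  have hbd : ∀ τ ∈ Set.Ioi (0 : ℝ), |1 / Real.pi ^ 2 * qf η1 η2 κ r' ψ' τ * Vf η1 η2 κ τ z| ≤
      2 * (Kit 0 (κ * r0 * Real.cos (ph0 η1 ψ')) *
        Kit 0 (κ * r' * Real.cos (ph0 η1 ψ'))) * Real.exp (-(lam0 η1 ψ' * τ)) := fun τ hτ =>
    F_le_away hS hB h1 h2 h3 hκ hr' ha' hb' hr0 hz hn hτ
  have hint : IntegrableOn (fun τ : ℝ =>
      |1 / Real.pi ^ 2 * qf η1 η2 κ r' ψ' τ * Vf η1 η2 κ τ z|) (Set.Ioi 0) := by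
    refine (exp_intg hl (2 * (Kit 0 (κ * r0 * Real.cos (ph0 η1 ψ')) *
        Kit 0 (κ * r' * Real.cos (ph0 η1 ψ'))))).mono'
      (measurable_abs.comp hmeas).aestronglyMeasurable ?_
    refine (ae_restrict_iff' measurableSet_Ioi).mpr (Eventually.of_forall fun τ hτ => ?_)
    rw [Real.norm_eq_abs, abs_abs]
    exact hbd τ hτ
  have hfin := setIntegral_mono_on hint (exp_intg hl _) measurableSet_Ioi hbd
  rw [exp_int hl] at hfin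
  exact (abs_integral_le_integral_abs).trans hfin

theorem Vk_lmp (hS : KtsStatement) (hB : KtbStatement) (hM : MvpStatement) (h1 : 0 < η1)
    (h2 : 0 < η2) (h3 : η1 + η2 < Real.pi) (hκ : 0 < κ) (hr' : 0 < r')
    (ha' : -η2 < ψ') (hb' : ψ' < η1) :
    LMP (κ ^ 2) (Wd η1 η2) (Vk η1 η2 κ r' ψ') := by
  have hl : 0 < lam0 η1 ψ' := by unfold lam0; linarith
  refine hM.2.2 κ _ _ hκ (Wd_open η1 η2) (Vk_meas hB η1 η2 κ r' ψ') ?_ ?_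
  · intro K hK hs
    obtain ⟨r0, hr0, hn⟩ := compact_away hK hs
    exact ⟨_, fun z hz => Vk_le_away hS hB h1 h2 h3 hκ hr' ha' hb' hr0 (hs hz) (hn z hz)⟩
  · refine MVP.param (f := fun τ z => 1 / Real.pi ^ 2 * qf η1 η2 κ r' ψ' τ * Vf η1 η2 κ τ z)
      (F_meas hB η1 η2 κ r' ψ') (fun τ _ => Vf_mvp hM h1 h2 h3 hκ τ _) ?_
    intro K hK hs
    obtain ⟨r0, hr0, hn⟩ := compact_away hK hs
    exact ⟨_, exp_intg hl _, fun τ hτ z hz =>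
      F_le_away hS hB h1 h2 h3 hκ hr' ha' hb' hr0 (hs hz) (hn z hz) hτ⟩

end

/-- the barrier -/
noncomputable def Bf (κ : ℝ) (z : ℂ) : ℝ := Kit 0 (κ * ‖z‖)

lemma Bf_meas (hB : KtbStatement) (κ : ℝ) : Measurable (Bf κ) :=
  hB.2.2.2.2.2.2.2.2.1.comp (by fun_prop : Measurable fun z : ℂ => ((0 : ℝ), κ * ‖z‖))

theorem Bf_lmp (hS : KtsStatement) (hB : KtbStatement) (hM : MvpStatement) {η1 η2 κ : ℝ}
    (h1 : 0 < η1) (h2 : 0 < η2) (h3 : η1 + η2 < Real.pi) (hκ : 0 < κ) :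
    LMP (κ ^ 2) (Wd η1 η2) (Bf κ) := by
  refine hM.2.2 κ _ _ hκ (Wd_open η1 η2) (Bf_meas hB κ) ?_ ?_
  · intro K hK hs
    obtain ⟨r0, hr0, hn⟩ := compact_away hK hs
    refine ⟨Kit 0 (κ * r0), fun z hz => ?_⟩
    have hz0 := hn z hz
    have hpos : 0 < ‖z‖ := hr0.trans_le hz0
    unfold Bf
    rw [abs_of_pos (hB.2.2.2.1 _ (by positivity))]
    exact hB.2.2.2.2.1 (Set.mem_Ioi.mpr (by positivity)) (Set.mem_Ioi.mpr (by positivity))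
      (by gcongr)
  · refine MVP.congr (fun z hz => ?_) (pw_mvp hM h1 h2 h3 hκ 0)
    obtain ⟨r, ψ, hr, ha, hb, rfl⟩ := Wd_polar h1 h2 h3 hz
    have hx : |ψ - (η1 - η2) / 2| < Real.pi / 2 := by
      rw [abs_lt]
      constructor <;> linarith
    rw [ct_polar, hS.2.1 0 (κ * r) _ (mul_pos hκ hr) hx]
    unfold Bf
    rw [norm_polar hr]
    simp

end Pool.Agent.H60K.H38
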