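import Pool.Agent.Helper38_AEU3.KerC

/-! KER, part D: the resolvent kernel. -/

set_option autoImplicit false
set_option linter.unusedSimpArgs false
set_option linter.unusedVariables false

namespace Pool.Agent.H60K.H38

open MeasureTheory Complex Filter Topology ProbabilityTheory Pool.Agent.H16Iso Pool.Agent.H62T
  Pool.Agent.H16F Pool.Agent.H38KL

/-! ### The Gaussian kernel -/

lemma G_nn {t : ℝ} (ht : 0 < t) (z : ℂ) : 0 ≤ G t z := AEU.H44.G_nonneg ht z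

lemma G_small {t a : ℝ} (ht : 0 < t) (ha : 0 < a) {w : ℂ} (hw : a ≤ ‖w‖) :
    G t w ≤ 96 * t ^ 2 / a ^ 6 := by
  have hpi := Real.pi_gt_three
  unfold G
  have hu : 0 < a ^ 2 / (4 * t) := by positivity
  have h0 : (a ^ 2 / (4 * t)) ^ 3 / 6 ≤ Real.exp (a ^ 2 / (4 * t)) := by
    have := Real.pow_div_factorial_le_exp (a ^ 2 / (4 * t)) hu.le 3
    simpa [Nat.factorial] using this
  have h1 : Real.exp (-(‖w‖ ^ 2) / (4 * t)) ≤ Real.exp (-(a ^ 2 / (4 * t))) := by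
    apply Real.exp_le_exp.mpr
    have : a ^ 2 / (4 * t) ≤ ‖w‖ ^ 2 / (4 * t) := by gcongr
    have e : -(‖w‖ ^ 2) / (4 * t) = -(‖w‖ ^ 2 / (4 * t)) := by ring
    rw [e]
    linarith only [this]
  have h2 : Real.exp (-(a ^ 2 / (4 * t))) ≤ 384 * t ^ 3 / a ^ 6 := by
    rw [Real.exp_neg]
    have h3 : 0 < (a ^ 2 / (4 * t)) ^ 3 / 6 := by positivity
    calc (Real.exp (a ^ 2 / (4 * t)))⁻¹ ≤ ((a ^ 2 / (4 * t)) ^ 3 / 6)⁻¹ := by gcongr
      _ = 384 * t ^ 3 / a ^ 6 := by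
          field_simp
          ring
  calc Real.exp (-(‖w‖ ^ 2) / (4 * t)) / (4 * Real.pi * t)
      ≤ (384 * t ^ 3 / a ^ 6) / (4 * 1 * t) := by
        gcongr
        · exact h1.trans h2
        · linarith
    _ = 96 * t ^ 2 / a ^ 6 := by
        field_simp
        ring

lemma G_int1 {t : ℝ} (ht : 0 < t) (w : ℂ) :
    Integrable (fun y : ℂ => G t (y - w)) ∧ ∫ y : ℂ, G t (y - w) = 1 := by
  have hb : 0 < 1 / (4 * t) := by positivity
  have e : (fun y : ℂ => G t (y - w)) = fun y : ℂ =>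
      1 / (4 * Real.pi * t) * Real.exp (-(1 / (4 * t)) * ‖y - w‖ ^ 2) := by
    ext y
    unfold G
    have : -(‖y - w‖ ^ 2) / (4 * t) = -(1 / (4 * t)) * ‖y - w‖ ^ 2 := by ring
    rw [this]
    ring
  rw [e]
  refine ⟨(H41.integrable_gauss _ hb w).const_mul _, ?_⟩
  rw [integral_const_mul, H41.integral_gauss _ hb w]
  have := Real.pi_pos
  field_simp

section

variable (η1 η2 d : ℝ)

/-! ### Measurability -/

lemma pB_meas (B : Finset (Fin 3)) :
    Measurable fun p : ℝ × ℂ × ℂ => pB (us η1 η2) (hh d) B p.1 p.2.1 p.2.2 :=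
  H8.pD_meas (H44.dm_open (us η1 η2) (hh d) B)

lemma Kk_meas3 : Measurable fun p : ℝ × ℂ × ℂ => Kk η1 η2 d p.1 p.2.1 p.2.2 := by
  have h := Measurable.sub (pB_meas η1 η2 d {2}) (pB_meas η1 η2 d {1, 2})
  have e : (fun p : ℝ × ℂ × ℂ => Kk η1 η2 d p.1 p.2.1 p.2.2) = fun p : ℝ × ℂ × ℂ =>
      pB (us η1 η2) (hh d) {2} p.1 p.2.1 p.2.2 - pB (us η1 η2) (hh d) {1, 2} p.1 p.2.1 p.2.2 := by
    funext p
    exact Kk_eq η1 η2 d p.1 p.2.1 p.2.2
  rw [e]
  exact h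

lemma Kk_mc {α : Type*} [MeasurableSpace α] {f : α → ℝ} {g k : α → ℂ} (hf : Measurable f)
    (hg : Measurable g) (hk : Measurable k) :
    Measurable fun a => Kk η1 η2 d (f a) (g a) (k a) := by
  have := Measurable.comp (g := fun p : ℝ × ℂ × ℂ => Kk η1 η2 d p.1 p.2.1 p.2.2)
    (f := fun a => (f a, g a, k a)) (Kk_meas3 η1 η2 d) (hf.prodMk (hg.prodMk hk))
  exact this

lemma Kk_meas2 (z' : ℂ) : Measurable fun p : ℝ × ℂ => Kk η1 η2 d p.1 p.2 z' :=
  Kk_mc η1 η2 d measurable_fst measurable_snd measurable_const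

lemma Kk_measz (t : ℝ) (z' : ℂ) : Measurable fun y : ℂ => Kk η1 η2 d t y z' :=
  Kk_mc η1 η2 d measurable_const measurable_id measurable_const

lemma Kk_meast (z z' : ℂ) : Measurable fun t : ℝ => Kk η1 η2 d t z z' :=
  Kk_mc η1 η2 d measurable_id measurable_const measurable_const

/-! ### Pointwise bounds -/

lemma pB_le_G (B : Finset (Fin 3)) {t : ℝ} (ht : 0 < t) (x y : ℂ) :
    pB (us η1 η2) (hh d) B t x y ≤ G t (x - y) :=
  H8.pD_le (H44.dm_open (us η1 η2) (hh d) B) ht x y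

lemma Kk_le_G {t : ℝ} (ht : 0 < t) (x y : ℂ) : Kk η1 η2 d t x y ≤ G t (x - y) :=
  (Kk_le_p2 η1 η2 d ht x y).trans (pB_le_G η1 η2 d {2} ht x y)

lemma Kk_le_rf {t : ℝ} (ht : 0 < t) {x y : ℂ} (hx : ip (us η1 η2 1) x < 0)
    (hy : ip (us η1 η2 1) y < 0) : Kk η1 η2 d t x y ≤ G t (x - rf' η1 η2 d 1 y) := by
  have h1 := Kk_le η1 η2 d ht x y
  rw [p1_eq η1 η2 d ht hx hy] at h1
  linarith

/-- distance from the sides -/
lemma ball_dist {z : ℂ} {r : ℝ} (hr : 0 < r) (hb : Metric.closedBall z r ⊆ Wd η1 η2)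
    (s : Fin 3) (hs : s = 1 ∨ s = 2) : r ≤ -ip (us η1 η2 s) z := by
  have hu := us_norm η1 η2 s
  have h1 := Complex.sq_norm (us η1 η2 s)
  rw [hu, Complex.normSq_apply] at h1
  have hm : z + r * us η1 η2 s ∈ Metric.closedBall z r := by
    rw [Metric.mem_closedBall, dist_eq_norm]
    have : z + r * us η1 η2 s - z = r * us η1 η2 s := by ring
    rw [this, norm_mul, hu, Complex.norm_real, Real.norm_eq_abs, abs_of_pos hr, mul_one]
  have hw := hb hm
  have h2 : ip (us η1 η2 s) (z + r * us η1 η2 s) = ip (us η1 η2 s) z + r := by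
    simp only [ip, Complex.add_re, Complex.add_im, Complex.re_ofReal_mul, Complex.im_ofReal_mul]
    linear_combination (-r) * h1
  rcases hs with rfl | rfl
  · have := hw.1
    rw [h2] at this
    linarith
  · have := hw.2
    rw [h2] at this
    linarith

lemma ip_sub (u x y : ℂ) : ip u (x - y) = ip u x - ip u y := by
  simp only [ip, Complex.sub_re, Complex.sub_im]
  ring

/-- the kernel between points which are far from side 1 -/
lemma Kk_far {z : ℂ} {r δ : ℝ} (hr : 0 < r) (hδ : 0 < δ) (hz : r ≤ -ip (us η1 η2 1) z) (y : ℂ) :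
    Kk η1 η2 d δ z y ≤ 96 * δ ^ 2 / r ^ 6 := by
  by_cases hy : ip (us η1 η2 1) y < 0
  · refine (Kk_le_rf η1 η2 d hδ (by linarith) hy).trans (G_small hδ hr ?_)
    refine le_trans ?_ (dist_rf2 η1 η2 d 1 (hh1 d))
    linarith
  · push Not at hy
    refine (Kk_le_G η1 η2 d hδ z y).trans (G_small hδ hr ?_)
    have h1 := abs_ip_le (us_norm η1 η2 1) (z - y)
    rw [ip_sub] at h1
    have h2 := neg_abs_le (ip (us η1 η2 1) z - ip (us η1 η2 1) y)
    linarith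

lemma p12_near {z : ℂ} {r δ : ℝ} (hr : 0 < r) (hδ : 0 < δ)
    (hb : Metric.closedBall z r ⊆ Wd η1 η2) {y : ℂ} (hy : y ∈ Metric.ball z r) :
    G δ (z - y) - pB (us η1 η2) (hh d) {1, 2} δ z y ≤ 2 * (96 * δ ^ 2 / r ^ 6) := by
  have hs := super12 η1 η2 d hδ z y
  have hyW := hb (Metric.ball_subset_closedBall hy)
  have hzW := hb (Metric.mem_closedBall_self hr.le)
  rw [p1_eq η1 η2 d hδ hzW.1 hyW.1, p2_eq η1 η2 d hδ hzW.2 hyW.2] at hs
  have d1 := ball_dist η1 η2 hr hb 1 (Or.inl rfl)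
  have d2 := ball_dist η1 η2 hr hb 2 (Or.inr rfl)
  have b1 : G δ (z - rf' η1 η2 d 1 y) ≤ 96 * δ ^ 2 / r ^ 6 := by
    refine G_small hδ hr (le_trans ?_ (dist_rf2 η1 η2 d 1 (hh1 d)))
    have := hyW.1
    linarith
  have b2 : G δ (z - rf' η1 η2 d 2 y) ≤ 96 * δ ^ 2 / r ^ 6 := by
    refine G_small hδ hr (le_trans ?_ (dist_rf2 η1 η2 d 2 (hh2 d)))
    have := hyW.2
    linarith
  linarith

lemma p12_far {z : ℂ} {r δ : ℝ} (hr : 0 < r) (hδ : 0 < δ) {y : ℂ} (hy : y ∉ Metric.ball z r) :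
    pB (us η1 η2) (hh d) {1, 2} δ z y ≤ 96 * δ ^ 2 / r ^ 6 := by
  refine (pB_le_G η1 η2 d {1, 2} hδ z y).trans (G_small hδ hr ?_)
  rw [Metric.mem_ball, dist_comm, dist_eq_norm] at hy
  push Not at hy
  exact hy

/-- the semigroup property up to a small error -/
lemma Kk_step {z z' : ℂ} {r δ t : ℝ} (hr : 0 < r) (hδ : 0 < δ) (ht : 0 < t)
    (hb : Metric.closedBall z r ⊆ Wd η1 η2) :
    |Kk η1 η2 d (δ + t) z z' - ∫ y in Metric.ball z r, G δ (z - y) * Kk η1 η2 d t y z'| ≤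
      3 * (96 * δ ^ 2 / r ^ 6) := by
  set e : ℝ := 96 * δ ^ 2 / r ^ 6 with he
  have he0 : 0 ≤ e := by positivity
  have i2 : Integrable (fun y => pB (us η1 η2) (hh d) {2} δ z y *
      pB (us η1 η2) (hh d) {2} t y z') :=
    AEU.H44.pD_int2 (H44.dm_open (us η1 η2) (hh d) {2}) hδ ht z z'
  have i12 : Integrable (fun y => pB (us η1 η2) (hh d) {1, 2} δ z y *
      pB (us η1 η2) (hh d) {1, 2} t y z') :=
    AEU.H44.pD_int2 (H44.dm_open (us η1 η2) (hh d) {1, 2}) hδ ht z z'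
  have a2 : pB (us η1 η2) (hh d) {2} (δ + t) z z' = ∫ y, pB (us η1 η2) (hh d) {2} δ z y *
      pB (us η1 η2) (hh d) {2} t y z' :=
    AEU.H44.pD_add (H44.dm_open (us η1 η2) (hh d) {2}) hδ ht z z'
  have a12 : pB (us η1 η2) (hh d) {1, 2} (δ + t) z z' =
      ∫ y, pB (us η1 η2) (hh d) {1, 2} δ z y * pB (us η1 η2) (hh d) {1, 2} t y z' :=
    AEU.H44.pD_add (H44.dm_open (us η1 η2) (hh d) {1, 2}) hδ ht z z'
  have hGm : Measurable fun y : ℂ => G δ (z - y) := by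
    unfold G
    fun_prop
  have hGi := (G_int1 ht z').1
  have hind : ∫ y in Metric.ball z r, G δ (z - y) * Kk η1 η2 d t y z' =
      ∫ y, (Metric.ball z r).indicator (fun y => G δ (z - y) * Kk η1 η2 d t y z') y := by
    rw [integral_indicator measurableSet_ball]
  have hii : Integrable ((Metric.ball z r).indicator
      (fun y => G δ (z - y) * Kk η1 η2 d t y z')) := by
    refine Integrable.indicator ?_ measurableSet_ball
    refine (AEU.H44.G_int2 hδ ht z z').mono' (hGm.mul (Kk_measz η1 η2 d t z')).aestronglyMeasurable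
      (Eventually.of_forall fun y => ?_)
    rw [Real.norm_of_nonneg (mul_nonneg (G_nn hδ _) (Kk_nonneg η1 η2 d ht y z'))]
    exact mul_le_mul_of_nonneg_left (Kk_le_G η1 η2 d ht y z') (G_nn hδ _)
  have i3 : Integrable (fun y => pB (us η1 η2) (hh d) {2} δ z y *
      pB (us η1 η2) (hh d) {2} t y z' - pB (us η1 η2) (hh d) {1, 2} δ z y *
      pB (us η1 η2) (hh d) {1, 2} t y z') := i2.sub i12
  rw [Kk_eq, a2, a12, hind, ← integral_sub i2 i12, ← integral_sub i3 hii]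
  have key : ∀ y : ℂ, ‖pB (us η1 η2) (hh d) {2} δ z y * pB (us η1 η2) (hh d) {2} t y z' -
      pB (us η1 η2) (hh d) {1, 2} δ z y * pB (us η1 η2) (hh d) {1, 2} t y z' -
      (Metric.ball z r).indicator (fun y => G δ (z - y) * Kk η1 η2 d t y z') y‖ ≤
      3 * e * G t (y - z') := by
    intro y
    have k0 := Kk_nonneg η1 η2 d ht y z'
    have k1 := Kk_le_G η1 η2 d ht y z'
    have k2 := Kk_nonneg η1 η2 d hδ z y
    have k3 : Kk η1 η2 d δ z y ≤ e :=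
      Kk_far η1 η2 d hr hδ (ball_dist η1 η2 hr hb 1 (Or.inl rfl)) y
    have k4 := pB_nonneg η1 η2 d {2} ht y z'
    have k5 := pB_le_G η1 η2 d {2} ht y z'
    have k6 := pB_nonneg η1 η2 d {1, 2} hδ z y
    have g0 := G_nn ht (y - z')
    have t1 : 0 ≤ Kk η1 η2 d δ z y * pB (us η1 η2) (hh d) {2} t y z' := mul_nonneg k2 k4
    have t2 : Kk η1 η2 d δ z y * pB (us η1 η2) (hh d) {2} t y z' ≤ e * G t (y - z') :=
      mul_le_mul k3 k5 k4 he0
    by_cases hy : y ∈ Metric.ball z r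
    · rw [Set.indicator_of_mem hy]
      have k7 : G δ (z - y) - pB (us η1 η2) (hh d) {1, 2} δ z y ≤ 2 * e :=
        p12_near η1 η2 d hr hδ hb hy
      have k8 := pB_le_G η1 η2 d {1, 2} hδ z y
      have t3 : 0 ≤ (G δ (z - y) - pB (us η1 η2) (hh d) {1, 2} δ z y) * Kk η1 η2 d t y z' :=
        mul_nonneg (by linarith) k0
      have t4 : (G δ (z - y) - pB (us η1 η2) (hh d) {1, 2} δ z y) * Kk η1 η2 d t y z' ≤
          2 * e * G t (y - z') := mul_le_mul k7 k1 k0 (by linarith)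
      have e1 : pB (us η1 η2) (hh d) {2} δ z y * pB (us η1 η2) (hh d) {2} t y z' -
          pB (us η1 η2) (hh d) {1, 2} δ z y * pB (us η1 η2) (hh d) {1, 2} t y z' -
          G δ (z - y) * Kk η1 η2 d t y z' =
          Kk η1 η2 d δ z y * pB (us η1 η2) (hh d) {2} t y z' -
          (G δ (z - y) - pB (us η1 η2) (hh d) {1, 2} δ z y) * Kk η1 η2 d t y z' := by
        rw [Kk_eq, Kk_eq]
        ring
      rw [e1, Real.norm_eq_abs, abs_le]
      constructor <;> linarith only [t1, t2, t4, t3]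
    · rw [Set.indicator_of_notMem hy]
      have k7 : pB (us η1 η2) (hh d) {1, 2} δ z y ≤ e := p12_far η1 η2 d hr hδ hy
      have t3 : 0 ≤ pB (us η1 η2) (hh d) {1, 2} δ z y * Kk η1 η2 d t y z' := mul_nonneg k6 k0
      have t4 : pB (us η1 η2) (hh d) {1, 2} δ z y * Kk η1 η2 d t y z' ≤ e * G t (y - z') :=
        mul_le_mul k7 k1 k0 he0
      have e1 : pB (us η1 η2) (hh d) {2} δ z y * pB (us η1 η2) (hh d) {2} t y z' -
          pB (us η1 η2) (hh d) {1, 2} δ z y * pB (us η1 η2) (hh d) {1, 2} t y z' - 0 =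
          Kk η1 η2 d δ z y * pB (us η1 η2) (hh d) {2} t y z' +
          pB (us η1 η2) (hh d) {1, 2} δ z y * Kk η1 η2 d t y z' := by
        rw [Kk_eq, Kk_eq]
        ring
      rw [e1, Real.norm_eq_abs, abs_le]
      constructor <;> linarith only [t1, t2, t3, t4]
  have hfin := norm_integral_le_of_norm_le (hGi.const_mul (3 * e)) (Eventually.of_forall key)
  rw [integral_const_mul, (G_int1 ht z').2, mul_one, Real.norm_eq_abs] at hfin
  exact hfin

/-! ### The resolvent -/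

/-- the resolvent kernel -/
noncomputable def Rk (κ : ℝ) (z' z : ℂ) : ℝ :=
  ∫ t in Set.Ioi (0 : ℝ), Real.exp (-(κ ^ 2 * t)) * Kk η1 η2 d t z z'

lemma Rk_meas (κ : ℝ) (z' : ℂ) : Measurable (Rk η1 η2 d κ z') := by
  unfold Rk
  have h : Measurable fun p : ℂ × ℝ => Real.exp (-(κ ^ 2 * p.2)) * Kk η1 η2 d p.2 p.1 z' :=
    (by fun_prop : Measurable fun p : ℂ × ℝ => Real.exp (-(κ ^ 2 * p.2))).mul
      (Kk_mc η1 η2 d measurable_snd measurable_fst measurable_const)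
  exact (h.stronglyMeasurable.integral_prod_right' (ν := volume.restrict (Set.Ioi 0))).measurable

lemma Rk_intg (hL : KtlStatement) {κ : ℝ} (hκ : 0 < κ) {z z' : ℂ} (hz : z ∈ Wd η1 η2)
    (hz' : z' ∈ Wd η1 η2) :
    IntegrableOn (fun t => Real.exp (-(κ ^ 2 * t)) * Kk η1 η2 d t z z') (Set.Ioi 0) ∧
    Rk η1 η2 d κ z' z ≤ Kit 0 (κ * ‖z - rf' η1 η2 d 1 z'‖) / (2 * Real.pi) ∧
    0 ≤ Rk η1 η2 d κ z' z := by
  have hne : z - rf' η1 η2 d 1 z' ≠ 0 := by
    have h1 := dist_rf' η1 η2 d 1 (hh1 d) (x := z) (y := z') hz.1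
    have h2 := hz'.1
    rw [← norm_pos_iff]
    linarith
  obtain ⟨k1, k2⟩ := hL κ _ hκ hne
  have hm : Measurable fun t : ℝ => Real.exp (-(κ ^ 2 * t)) * Kk η1 η2 d t z z' :=
    (by fun_prop : Measurable fun t : ℝ => Real.exp (-(κ ^ 2 * t))).mul (Kk_meast η1 η2 d z z')
  have hb : ∀ t ∈ Set.Ioi (0 : ℝ), Real.exp (-(κ ^ 2 * t)) * Kk η1 η2 d t z z' ≤
      Real.exp (-(κ ^ 2 * t)) * G t (z - rf' η1 η2 d 1 z') := fun t ht =>
    mul_le_mul_of_nonneg_left (Kk_le_rf η1 η2 d ht hz.1 hz'.1) (Real.exp_pos _).le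
  have hi : IntegrableOn (fun t => Real.exp (-(κ ^ 2 * t)) * Kk η1 η2 d t z z') (Set.Ioi 0) := by
    refine k1.mono' hm.aestronglyMeasurable
      ((ae_restrict_iff' measurableSet_Ioi).mpr (Eventually.of_forall fun t ht => ?_))
    rw [Real.norm_of_nonneg (mul_nonneg (Real.exp_pos _).le (Kk_nonneg η1 η2 d ht z z'))]
    exact hb t ht
  refine ⟨hi, ?_, ?_⟩
  · rw [← k2]
    exact setIntegral_mono_on hi k1 measurableSet_Ioi hb
  · exact setIntegral_nonneg measurableSet_Ioi fun t ht =>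
      mul_nonneg (Real.exp_pos _).le (Kk_nonneg η1 η2 d ht z z')

/-- difference of the free kernels -/
noncomputable def Ek (κ : ℝ) (s : Fin 3) (z' z : ℂ) : ℝ :=
  (Kit 0 (κ * ‖z - z'‖) - Kit 0 (κ * ‖z - rf' η1 η2 d s z'‖)) / (2 * Real.pi)

lemma pB_lap (hL : KtlStatement) {κ : ℝ} (hκ : 0 < κ) {z z' : ℂ} (hne : z ≠ z')
    (s : Fin 3) (hs : s = 1 ∨ s = 2)
    (hz : z ∈ Wd η1 η2) (hz' : z' ∈ Wd η1 η2) :
    IntegrableOn (fun t => Real.exp (-(κ ^ 2 * t)) * pB (us η1 η2) (hh d) {s} t z z')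
      (Set.Ioi 0) ∧
    ∫ t in Set.Ioi (0 : ℝ), Real.exp (-(κ ^ 2 * t)) * pB (us η1 η2) (hh d) {s} t z z' =
      Ek η1 η2 d κ s z' z := by
  have hne1 : z - rf' η1 η2 d s z' ≠ 0 := by
    rw [← norm_pos_iff]
    rcases hs with rfl | rfl
    · have h1 := dist_rf' η1 η2 d 1 (hh1 d) (x := z) (y := z') hz.1
      have h2 := hz'.1
      linarith
    · have h1 := dist_rf' η1 η2 d 2 (hh2 d) (x := z) (y := z') hz.2
      have h2 := hz'.2
      linarith
  obtain ⟨k1, k2⟩ := hL κ _ hκ hne1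
  obtain ⟨k3, k4⟩ := hL κ _ hκ (sub_ne_zero.mpr hne)
  have e : ∀ t ∈ Set.Ioi (0 : ℝ), Real.exp (-(κ ^ 2 * t)) * G t (z - z') -
      Real.exp (-(κ ^ 2 * t)) * G t (z - rf' η1 η2 d s z') =
      Real.exp (-(κ ^ 2 * t)) * pB (us η1 η2) (hh d) {s} t z z' := by
    intro t ht
    rcases hs with rfl | rfl
    · rw [p1_eq η1 η2 d ht hz.1 hz'.1]
      ring
    · rw [p2_eq η1 η2 d ht hz.2 hz'.2]
      ring
  have hi := k3.sub k1
  refine ⟨hi.congr_fun e measurableSet_Ioi, ?_⟩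
  rw [← setIntegral_congr_fun measurableSet_Ioi e, integral_sub k3 k1, k2, k4]
  unfold Ek
  ring

lemma Rk_E2 (hL : KtlStatement) {κ : ℝ} (hκ : 0 < κ) {z z' : ℂ} (hne : z ≠ z')
    (hz : z ∈ Wd η1 η2) (hz' : z' ∈ Wd η1 η2) :
    Rk η1 η2 d κ z' z ≤ Ek η1 η2 d κ 2 z' z ∧
    |Rk η1 η2 d κ z' z - Ek η1 η2 d κ 2 z' z| ≤ Ek η1 η2 d κ 1 z' z := by
  obtain ⟨a1, a2⟩ := pB_lap η1 η2 d hL hκ hne 1 (Or.inl rfl) hz hz'
  obtain ⟨b1, b2⟩ := pB_lap η1 η2 d hL hκ hne 2 (Or.inr rfl) hz hz'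
  obtain ⟨c1, -, -⟩ := Rk_intg η1 η2 d hL hκ hz hz'
  have h1 : Rk η1 η2 d κ z' z ≤ Ek η1 η2 d κ 2 z' z := by
    rw [← b2]
    exact setIntegral_mono_on c1 b1 measurableSet_Ioi fun t ht =>
      mul_le_mul_of_nonneg_left (Kk_le_p2 η1 η2 d ht z z') (Real.exp_pos _).le
  refine ⟨h1, ?_⟩
  rw [abs_sub_comm, abs_of_nonneg (by linarith), ← b2, ← a2]
  unfold Rk
  rw [← integral_sub b1 c1]
  refine setIntegral_mono_on (b1.sub c1) a1 measurableSet_Ioi fun t ht => ?_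
  rw [← mul_sub]
  refine mul_le_mul_of_nonneg_left ?_ (Real.exp_pos _).le
  rw [Kk_eq]
  have := pB_anti η1 η2 d (B := {1}) (C := {1, 2}) (by decide) ht z z'
  linarith

end

end Pool.Agent.H60K.H38
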