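import Pool.Agent.Helper38_AEU3.KerD

/-! KER, part E: the resolvent kernel has the local smoothing property. -/

set_option autoImplicit false
set_option linter.unusedSimpArgs false
set_option linter.unusedVariables false

namespace Pool.Agent.H60K.H38

open MeasureTheory Complex Filter Topology ProbabilityTheory Pool.Agent.H16Iso Pool.Agent.H62T
  Pool.Agent.H16F Pool.Agent.H38KL

lemma shift_Ioi (f : ℝ → ℝ) (δ : ℝ) :
    ∫ t in Set.Ioi (0 : ℝ), f (t + δ) = ∫ t in Set.Ioi δ, f t := by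
  have h := (measurePreserving_add_right (volume : Measure ℝ) δ).setIntegral_preimage_emb
    (measurableEmbedding_addRight δ) f (Set.Ioi δ)
  rw [Set.preimage_add_const_Ioi, sub_self] at h
  exact h

lemma shift_intg (f : ℝ → ℝ) (δ : ℝ) (hf : IntegrableOn f (Set.Ioi δ)) :
    IntegrableOn (fun t => f (t + δ)) (Set.Ioi 0) := by
  have h := ((measurePreserving_add_right (volume : Measure ℝ) δ).integrableOn_comp_preimage
    (measurableEmbedding_addRight δ) (s := Set.Ioi δ) (f := f)).mpr hf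
  rw [Set.preimage_add_const_Ioi, sub_self] at h
  exact h

lemma G_lap_int (κ : ℝ) (hκ : 0 < κ) (z' : ℂ) :
    Integrable (fun p : ℂ × ℝ => Real.exp (-(κ ^ 2 * p.2)) * G p.2 (p.1 - z'))
      ((volume : Measure ℂ).prod (volume.restrict (Set.Ioi (0 : ℝ)))) := by
  have hm : Measurable fun p : ℂ × ℝ => Real.exp (-(κ ^ 2 * p.2)) * G p.2 (p.1 - z') := by
    unfold G
    fun_prop
  refine (integrable_prod_iff' hm.aestronglyMeasurable).mpr ⟨?_, ?_⟩
  · exact (ae_restrict_iff' measurableSet_Ioi).mpr (Eventually.of_forall fun t ht =>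
      (G_int1 ht z').1.const_mul (Real.exp (-(κ ^ 2 * t))))
  · have hi : IntegrableOn (fun t : ℝ => 1 * Real.exp (-(κ ^ 2 * t))) (Set.Ioi 0) :=
      exp_intg (by positivity) 1
    refine hi.congr_fun (fun t ht => ?_) measurableSet_Ioi
    have e : ∀ y : ℂ, ‖Real.exp (-(κ ^ 2 * t)) * G t (y - z')‖ =
        Real.exp (-(κ ^ 2 * t)) * G t (y - z') := fun y =>
      Real.norm_of_nonneg (mul_nonneg (Real.exp_pos _).le (G_nn ht _))
    simp only [e]
    rw [integral_const_mul, (G_int1 ht z').2]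
    ring

section

variable (η1 η2 d : ℝ)

lemma ball_prod_int {κ : ℝ} (hκ : 0 < κ) (z z' : ℂ) {δ r : ℝ} (hδ : 0 < δ) :
    Integrable (fun p : ℂ × ℝ => G δ (z - p.1) * (Real.exp (-(κ ^ 2 * p.2)) *
      Kk η1 η2 d p.2 p.1 z'))
      ((volume.restrict (Metric.ball z r)).prod (volume.restrict (Set.Ioi (0 : ℝ)))) := by
  have hJ := (G_lap_int κ hκ z').const_mul (4 * Real.pi * δ)⁻¹
  have hJ2 : Integrable (fun p : ℂ × ℝ => (4 * Real.pi * δ)⁻¹ *
      (Real.exp (-(κ ^ 2 * p.2)) * G p.2 (p.1 - z')))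
      ((volume.restrict (Metric.ball z r)).prod (volume.restrict (Set.Ioi (0 : ℝ)))) := by
    rw [Measure.prod_restrict]
    rw [← Measure.restrict_univ (μ := (volume : Measure ℂ)), Measure.prod_restrict] at hJ
    exact IntegrableOn.mono_set hJ (Set.prod_mono (Set.subset_univ _) (le_refl _))
  have hm : Measurable (fun p : ℂ × ℝ => G δ (z - p.1) * (Real.exp (-(κ ^ 2 * p.2)) *
      Kk η1 η2 d p.2 p.1 z')) := by
    have h1 : Measurable fun p : ℂ × ℝ => G δ (z - p.1) := by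
      unfold G
      fun_prop
    exact h1.mul ((by fun_prop : Measurable fun p : ℂ × ℝ => Real.exp (-(κ ^ 2 * p.2))).mul
      (Kk_mc η1 η2 d measurable_snd measurable_fst measurable_const))
  refine hJ2.mono' hm.aestronglyMeasurable ?_
  rw [Measure.prod_restrict]
  refine (ae_restrict_iff' (measurableSet_ball.prod measurableSet_Ioi)).mpr
    (Eventually.of_forall fun p hp => ?_)
  have ht : 0 < p.2 := hp.2
  have k0 := Kk_nonneg η1 η2 d ht p.1 z'
  have k1 := Kk_le_G η1 η2 d ht p.1 z'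
  rw [Real.norm_of_nonneg (mul_nonneg (G_nn hδ _) (mul_nonneg (Real.exp_pos _).le k0))]
  exact mul_le_mul (AEU.H44.G_le hδ _) (mul_le_mul_of_nonneg_left k1 (Real.exp_pos _).le)
    (mul_nonneg (Real.exp_pos _).le k0) (by positivity)

theorem Rk_est (hL : KtlStatement) {κ : ℝ} (hκ : 0 < κ) {z' : ℂ} (hz' : z' ∈ Wd η1 η2)
    {r ε : ℝ} (hr : 0 < r) (hε : 0 < ε) :
    ∃ δ0 : ℝ, 0 < δ0 ∧ ∀ δ : ℝ, 0 < δ → δ < δ0 → ∀ z : ℂ, Metric.closedBall z r ⊆ Wd η1 η2 →
      |Rk η1 η2 d κ z' z - Real.exp (-(κ ^ 2 * δ)) *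
        ∫ y in Metric.ball z r, G δ (z - y) * Rk η1 η2 d κ z' y| ≤ ε * δ := by
  set a : ℝ := -ip (us η1 η2 1) z' with ha
  have ha0 : 0 < a := by have := hz'.1; linarith
  set C : ℝ := 96 / a ^ 6 + 288 / (r ^ 6 * κ ^ 2) with hC
  have hC0 : 0 < C := by positivity
  refine ⟨min 1 (ε / C), lt_min one_pos (by positivity), fun δ hδ hδ0 z hb => ?_⟩
  have hδ1 : δ < 1 := hδ0.trans_le (min_le_left _ _)
  have hδ2 : δ < ε / C := hδ0.trans_le (min_le_right _ _)
  have hz := hb (Metric.mem_closedBall_self hr.le)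
  obtain ⟨hf, -, -⟩ := Rk_intg η1 η2 d hL hκ hz hz'
  set e : ℝ := 96 * δ ^ 2 / r ^ 6 with he
  have he0 : 0 ≤ e := by positivity
  -- Fubini
  have hP := ball_prod_int η1 η2 d hκ z z' (r := r) hδ
  have hF : ∫ y in Metric.ball z r, G δ (z - y) * Rk η1 η2 d κ z' y =
      ∫ t in Set.Ioi (0 : ℝ), Real.exp (-(κ ^ 2 * t)) *
        ∫ y in Metric.ball z r, G δ (z - y) * Kk η1 η2 d t y z' := by
    have e1 : ∀ y : ℂ, G δ (z - y) * Rk η1 η2 d κ z' y =
        ∫ t in Set.Ioi (0 : ℝ), G δ (z - y) * (Real.exp (-(κ ^ 2 * t)) * Kk η1 η2 d t y z') := by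
      intro y
      rw [integral_const_mul]
      rfl
    simp only [e1]
    rw [integral_integral_swap hP]
    refine setIntegral_congr_fun measurableSet_Ioi fun t _ => ?_
    rw [← integral_const_mul]
    refine integral_congr_ae (Eventually.of_forall fun y => ?_)
    simp only
    ring
  have hFi : IntegrableOn (fun t => Real.exp (-(κ ^ 2 * t)) *
        ∫ y in Metric.ball z r, G δ (z - y) * Kk η1 η2 d t y z') (Set.Ioi 0) := by
    have h := hP.integral_prod_right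
    refine Integrable.congr h (Eventually.of_forall fun t => ?_)
    simp only
    rw [← integral_const_mul]
    refine integral_congr_ae (Eventually.of_forall fun y => ?_)
    simp only
    ring
  -- splitting the time integral
  have hsplit : Rk η1 η2 d κ z' z =
      (∫ t in Set.Ioc 0 δ, Real.exp (-(κ ^ 2 * t)) * Kk η1 η2 d t z z') +
      ∫ t in Set.Ioi (0 : ℝ), Real.exp (-(κ ^ 2 * (t + δ))) * Kk η1 η2 d (t + δ) z z' := by
    rw [shift_Ioi (fun t => Real.exp (-(κ ^ 2 * t)) * Kk η1 η2 d t z z') δ]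
    unfold Rk
    rw [← Set.Ioc_union_Ioi_eq_Ioi hδ.le, setIntegral_union Set.Ioc_disjoint_Ioi_same
      measurableSet_Ioi (hf.mono_set Set.Ioc_subset_Ioi_self)
      (hf.mono_set (Set.Ioi_subset_Ioi hδ.le))]
  have hsh : IntegrableOn (fun t => Real.exp (-(κ ^ 2 * (t + δ))) * Kk η1 η2 d (t + δ) z z')
      (Set.Ioi 0) :=
    shift_intg (fun t => Real.exp (-(κ ^ 2 * t)) * Kk η1 η2 d t z z') δ
      (hf.mono_set (Set.Ioi_subset_Ioi hδ.le))
  -- the first piece
  have hA : |∫ t in Set.Ioc 0 δ, Real.exp (-(κ ^ 2 * t)) * Kk η1 η2 d t z z'| ≤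
      96 * δ ^ 2 / a ^ 6 * δ := by
    have h := norm_setIntegral_le_of_norm_le_const (μ := volume) (s := Set.Ioc 0 δ)
      (f := fun t => Real.exp (-(κ ^ 2 * t)) * Kk η1 η2 d t z z') (C := 96 * δ ^ 2 / a ^ 6)
      (by simp) (fun t ht => by
        have ht0 : 0 < t := ht.1
        have ht1 : t ≤ δ := ht.2
        have k0 := Kk_nonneg η1 η2 d ht0 z z'
        have k1 := Kk_le_rf η1 η2 d ht0 hz.1 hz'.1
        have k2 : G t (z - rf' η1 η2 d 1 z') ≤ 96 * t ^ 2 / a ^ 6 :=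
          G_small ht0 ha0 (dist_rf' η1 η2 d 1 (hh1 d) hz.1)
        have k3 : Real.exp (-(κ ^ 2 * t)) ≤ 1 := by
          rw [Real.exp_le_one_iff]
          have : 0 ≤ κ ^ 2 * t := by positivity
          linarith
        rw [Real.norm_of_nonneg (mul_nonneg (Real.exp_pos _).le k0)]
        calc Real.exp (-(κ ^ 2 * t)) * Kk η1 η2 d t z z' ≤ 1 * (96 * t ^ 2 / a ^ 6) := by
              gcongr
              exact k1.trans k2
          _ ≤ 96 * δ ^ 2 / a ^ 6 := by
              rw [one_mul]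
              gcongr)
    rw [Real.norm_eq_abs] at h
    simpa [Real.volume_real_Ioc, hδ.le] using h
  -- the second piece
  have hB : |(∫ t in Set.Ioi (0 : ℝ), Real.exp (-(κ ^ 2 * (t + δ))) *
      Kk η1 η2 d (t + δ) z z') - Real.exp (-(κ ^ 2 * δ)) * ∫ t in Set.Ioi (0 : ℝ),
        Real.exp (-(κ ^ 2 * t)) * ∫ y in Metric.ball z r, G δ (z - y) * Kk η1 η2 d t y z'| ≤
      3 * e / κ ^ 2 := by
    have hFi2 : IntegrableOn (fun t => Real.exp (-(κ ^ 2 * δ)) * (Real.exp (-(κ ^ 2 * t)) *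
        ∫ y in Metric.ball z r, G δ (z - y) * Kk η1 η2 d t y z')) (Set.Ioi 0) :=
      hFi.const_mul _
    have hκ2 : 0 < κ ^ 2 := by positivity
    rw [← integral_const_mul, ← integral_sub hsh hFi2, ← exp_int hκ2, ← Real.norm_eq_abs]
    refine norm_integral_le_of_norm_le (exp_intg hκ2 (3 * e))
      ((ae_restrict_iff' measurableSet_Ioi).mpr (Eventually.of_forall fun t ht => ?_))
    have e1 : Real.exp (-(κ ^ 2 * (t + δ))) = Real.exp (-(κ ^ 2 * δ)) *
        Real.exp (-(κ ^ 2 * t)) := by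
      rw [← Real.exp_add]
      congr 1
      ring
    have k1 := Kk_step η1 η2 d (z' := z') hr hδ ht hb
    rw [add_comm δ t] at k1
    have k3 : Real.exp (-(κ ^ 2 * δ)) ≤ 1 := by
      rw [Real.exp_le_one_iff]
      have : 0 ≤ κ ^ 2 * δ := by positivity
      linarith
    have e2 : Real.exp (-(κ ^ 2 * (t + δ))) * Kk η1 η2 d (t + δ) z z' -
        Real.exp (-(κ ^ 2 * δ)) * (Real.exp (-(κ ^ 2 * t)) *
          ∫ y in Metric.ball z r, G δ (z - y) * Kk η1 η2 d t y z') =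
        Real.exp (-(κ ^ 2 * δ)) * (Real.exp (-(κ ^ 2 * t)) * (Kk η1 η2 d (t + δ) z z' -
          ∫ y in Metric.ball z r, G δ (z - y) * Kk η1 η2 d t y z')) := by
      rw [e1]
      ring
    rw [e2, Real.norm_eq_abs, abs_mul, abs_mul, abs_of_pos (Real.exp_pos _),
      abs_of_pos (Real.exp_pos _)]
    calc Real.exp (-(κ ^ 2 * δ)) * (Real.exp (-(κ ^ 2 * t)) * |Kk η1 η2 d (t + δ) z z' -
          ∫ y in Metric.ball z r, G δ (z - y) * Kk η1 η2 d t y z'|)
        ≤ 1 * (Real.exp (-(κ ^ 2 * t)) * (3 * e)) := by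
          gcongr
      _ = 3 * e * Real.exp (-(κ ^ 2 * t)) := by ring
  rw [hF, hsplit]
  have e3 : ∀ p q w : ℝ, p + q - w = p + (q - w) := fun p q w => by ring
  rw [e3]
  refine (abs_add_le _ _).trans ((add_le_add hA hB).trans ?_)
  have h5 : C * δ ≤ ε := by
    rw [lt_div_iff₀ hC0] at hδ2
    linarith
  have h6 : 96 * δ ^ 2 / a ^ 6 * δ ≤ 96 / a ^ 6 * δ * δ := by
    have : δ ^ 2 ≤ δ := by nlinarith
    calc 96 * δ ^ 2 / a ^ 6 * δ ≤ 96 * δ / a ^ 6 * δ := by gcongr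
      _ = _ := by ring
  have h7 : 3 * e / κ ^ 2 = 288 / (r ^ 6 * κ ^ 2) * δ * δ := by
    rw [he]
    field_simp
    ring
  calc 96 * δ ^ 2 / a ^ 6 * δ + 3 * e / κ ^ 2 ≤ 96 / a ^ 6 * δ * δ +
        288 / (r ^ 6 * κ ^ 2) * δ * δ := by rw [h7]; gcongr
    _ = C * δ * δ := by rw [hC]; ring
    _ ≤ ε * δ := by gcongr

end

end Pool.Agent.H60K.H38
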