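import Pool.Agent.Helper38_AEU3.KerE
import Pool.Agent.Helper38_AEU3.Ktp

/-! KER, part F: scalar facts for the boundary behaviour. -/

set_option autoImplicit false
set_option linter.unusedSimpArgs false
set_option linter.unusedVariables false

namespace Pool.Agent.H60K.H38

open MeasureTheory Complex Filter Topology ProbabilityTheory Pool.Agent.H16Iso Pool.Agent.H62T
  Pool.Agent.H16F Pool.Agent.H38KL

lemma Kit0_eq (x : ℝ) : Kit 0 x = ∫ v in Set.Ioi (0 : ℝ), Real.exp (-(x * Real.cosh v)) := by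
  unfold Kit
  simp

lemma Kit0_scale {c x : ℝ} (hc : 0 < c) (hc1 : c ≤ 1) (hx : 0 < x) :
    Kit 0 (x * c) ≤ Real.log (2 / c) + Kit 0 x := by
  set a : ℝ := Real.log (2 / c) with ha
  have h2c : 1 ≤ 2 / c := by
    rw [le_div_iff₀ hc]
    linarith
  have ha0 : 0 ≤ a := Real.log_nonneg h2c
  have hea : Real.exp a = 2 / c := Real.exp_log (by positivity)
  have hi := (intg_exp_cosh (a := x * c) (by positivity)).integrableOn (s := Set.Ioi (0 : ℝ))
  have hi2 := (intg_exp_cosh hx).integrableOn (s := Set.Ioi (0 : ℝ))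
  rw [Kit0_eq, Kit0_eq]
  rw [← Set.Ioc_union_Ioi_eq_Ioi ha0, setIntegral_union Set.Ioc_disjoint_Ioi_same
      measurableSet_Ioi (hi.mono_set Set.Ioc_subset_Ioi_self)
      (hi.mono_set (Set.Ioi_subset_Ioi ha0))]
  rw [Set.Ioc_union_Ioi_eq_Ioi ha0]
  refine add_le_add ?_ ?_
  · have h := norm_setIntegral_le_of_norm_le_const (μ := volume) (s := Set.Ioc 0 a)
      (f := fun v => Real.exp (-(x * c * Real.cosh v))) (C := 1)
      (by simp) (fun v hv => by
        rw [Real.norm_of_nonneg (Real.exp_pos _).le, Real.exp_le_one_iff]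
        have : 0 ≤ x * c * Real.cosh v := by
          have := Real.cosh_pos v
          positivity
        linarith)
    have h3 : (∫ v in Set.Ioc 0 a, Real.exp (-(x * c * Real.cosh v))) ≤
        ‖∫ v in Set.Ioc 0 a, Real.exp (-(x * c * Real.cosh v))‖ := Real.le_norm_self _
    refine h3.trans (h.trans ?_)
    simp [Real.volume_real_Ioc, ha0]
  · rw [← shift_Ioi (fun v => Real.exp (-(x * c * Real.cosh v))) a]
    refine setIntegral_mono_on (shift_intg (fun v => Real.exp (-(x * c * Real.cosh v))) a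
      (hi.mono_set (Set.Ioi_subset_Ioi ha0))) hi2 measurableSet_Ioi fun v hv => ?_
    apply Real.exp_le_exp.mpr
    have h4 : Real.cosh v ≤ c * Real.cosh (v + a) := by
      rw [Real.cosh_eq, Real.cosh_eq, Real.exp_add, hea]
      have h5 : Real.exp (-v) ≤ Real.exp v := Real.exp_le_exp.mpr (by
        have : 0 < v := hv
        linarith)
      have h6 : 0 < Real.exp (-(v + a)) := Real.exp_pos _
      have h7 : c * ((Real.exp v * (2 / c) + Real.exp (-(v + a))) / 2) =
          Real.exp v + c * Real.exp (-(v + a)) / 2 := by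
        field_simp
      rw [h7]
      have h8 : 0 < c * Real.exp (-(v + a)) := by positivity
      linarith
    have h9 : x * Real.cosh v ≤ x * (c * Real.cosh (v + a)) := by gcongr
    linarith

lemma Kit0_top (hB : KtbStatement) : Tendsto (Kit 0) atTop (𝓝 0) := by
  obtain ⟨C, hC⟩ := hB.2.2.2.2.2.2.1
  have h1 : Tendsto (fun x : ℝ => C * ((1 + x) * Real.exp (-x))) atTop (𝓝 0) := by
    have t1 := Real.tendsto_pow_mul_exp_neg_atTop_nhds_zero 1
    have t0 := Real.tendsto_exp_neg_atTop_nhds_zero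
    have : Tendsto (fun x : ℝ => C * (Real.exp (-x) + x ^ 1 * Real.exp (-x))) atTop
        (𝓝 (C * (0 + 0))) := (t0.add t1).const_mul C
    simp only [add_zero, mul_zero] at this
    refine this.congr fun x => ?_
    ring
  have hC0 : 0 ≤ C := by
    by_contra hn
    push Not at hn
    have h2 := hC 1 one_pos
    have h3 := hB.2.2.2.1 1 one_pos
    have h4 : C * (1 + |Real.log 1|) * Real.exp (-1) < 0 := by
      simp only [Real.log_one, abs_zero, add_zero, mul_one]
      exact mul_neg_of_neg_of_pos hn (Real.exp_pos _)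
    linarith
  refine tendsto_of_tendsto_of_tendsto_of_le_of_le' tendsto_const_nhds h1 ?_ ?_
  · filter_upwards [eventually_gt_atTop 0] with x hx
    exact (hB.2.2.2.1 x hx).le
  · filter_upwards [eventually_ge_atTop 1] with x hx
    refine (hC x (by linarith)).trans ?_
    rw [mul_assoc]
    refine mul_le_mul_of_nonneg_left ?_ hC0
    refine mul_le_mul_of_nonneg_right ?_ (Real.exp_pos _).le
    rw [abs_of_nonneg (Real.log_nonneg hx)]
    have := Real.log_le_self (by linarith : 0 ≤ x)
    linarith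

/-- dominated convergence -/
lemma min_tendsto {P Q : ℝ → ℝ} (hP : Measurable P) (hQ : Measurable Q)
    (hP0 : ∀ τ, 0 < τ → 0 ≤ P τ) (hQ0 : ∀ τ, 0 < τ → 0 ≤ Q τ) (hi : IntegrableOn Q (Set.Ioi 0)) :
    Tendsto (fun b : ℝ => ∫ τ in Set.Ioi (0 : ℝ), min (P τ / b) (Q τ)) atTop (𝓝 0) := by
  have key : Tendsto (fun b : ℝ => ∫ τ in Set.Ioi (0 : ℝ), min (P τ / b) (Q τ)) atTop
      (𝓝 (∫ τ in Set.Ioi (0 : ℝ), (0 : ℝ))) := ?_
  · simpa using key
  refine tendsto_integral_filter_of_dominated_convergence Q ?_ ?_ hi ?_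
  · exact Eventually.of_forall fun b => ((hP.div_const b).min hQ).aestronglyMeasurable
  · filter_upwards [eventually_gt_atTop 0] with b hb
    refine (ae_restrict_iff' measurableSet_Ioi).mpr (Eventually.of_forall fun τ hτ => ?_)
    rw [Real.norm_of_nonneg (le_min (div_nonneg (hP0 τ hτ) hb.le) (hQ0 τ hτ))]
    exact min_le_right _ _
  · refine (ae_restrict_iff' measurableSet_Ioi).mpr (Eventually.of_forall fun τ hτ => ?_)
    have h1 : Tendsto (fun b : ℝ => P τ / b) atTop (𝓝 0) :=
      tendsto_const_nhds.div_atTop tendsto_id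
    refine tendsto_of_tendsto_of_tendsto_of_le_of_le' tendsto_const_nhds h1 ?_ ?_
    · filter_upwards [eventually_gt_atTop 0] with b hb
      exact le_min (div_nonneg (hP0 τ hτ) hb.le) (hQ0 τ hτ)
    · exact Eventually.of_forall fun b => min_le_left _ _

/-! ### The free kernel as an integral -/

lemma fold_exp {k : ℝ → ℝ} (hk : ∀ τ, k (-τ) = k τ) (p : ℝ)
    (hi : Integrable (fun τ : ℝ => k τ * Real.exp (p * τ))) :
    IntegrableOn (fun τ : ℝ => k τ * Real.cosh (p * τ)) (Set.Ioi 0) ∧
    ∫ τ : ℝ, k τ * Real.exp (p * τ) = 2 * ∫ τ in Set.Ioi (0 : ℝ), k τ * Real.cosh (p * τ) := by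
  have hn : Integrable (fun τ : ℝ => k τ * Real.exp (-(p * τ))) := by
    have := hi.comp_neg
    refine this.congr (Eventually.of_forall fun τ => ?_)
    simp only
    rw [hk]
    congr 2
    ring
  have hc : Integrable (fun τ : ℝ => k τ * Real.cosh (p * τ)) := by
    have := (hi.add hn).const_mul (1 / 2)
    refine this.congr (Eventually.of_forall fun τ => ?_)
    simp only [Pi.add_apply]
    rw [Real.cosh_eq]
    ring
  refine ⟨hc.integrableOn, ?_⟩
  have e1 : ∫ τ : ℝ, k τ * Real.exp (-(p * τ)) = ∫ τ : ℝ, k τ * Real.exp (p * τ) := by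
    rw [← integral_neg_eq_self (fun τ : ℝ => k τ * Real.exp (p * τ))]
    refine integral_congr_ae (Eventually.of_forall fun τ => ?_)
    simp only
    rw [hk]
    congr 2
    ring
  have e2 : ∫ τ : ℝ, k τ * Real.cosh (p * τ) = ∫ τ : ℝ, k τ * Real.exp (p * τ) := by
    have : ∀ τ : ℝ, k τ * Real.cosh (p * τ) = 1 / 2 * (k τ * Real.exp (p * τ) +
        k τ * Real.exp (-(p * τ))) := fun τ => by
      rw [Real.cosh_eq]
      ring
    simp only [this]
    rw [integral_const_mul, integral_add hi hn, e1]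
    ring
  rw [← e2, ← integral_comp_abs (f := fun τ : ℝ => k τ * Real.cosh (p * τ))]
  refine integral_congr_ae (Eventually.of_forall fun τ => ?_)
  simp only
  rcases abs_choice τ with h | h
  · rw [h]
  · rw [h, hk, mul_neg, Real.cosh_neg]

lemma sinh_ratio {l α τ : ℝ} (hα : 0 < α) (hτ : 0 < τ) (hl : l ≤ α) :
    Real.sinh (l * τ) / Real.sinh (α * τ) ≤ Real.exp (-((α - l) * τ)) := by
  have s1 : 0 < Real.sinh (α * τ) := Real.sinh_pos_iff.mpr (by positivity)
  rw [div_le_iff₀ s1, Real.sinh_eq, Real.sinh_eq]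
  have e1 : Real.exp (-((α - l) * τ)) * ((Real.exp (α * τ) - Real.exp (-(α * τ))) / 2) =
      (Real.exp (l * τ) - Real.exp (-((2 * α - l) * τ))) / 2 := by
    rw [mul_div_assoc', mul_sub, ← Real.exp_add, ← Real.exp_add]
    congr 3 <;> ring
  rw [e1]
  have h2 : Real.exp (-((2 * α - l) * τ)) ≤ Real.exp (-(l * τ)) := by
    apply Real.exp_le_exp.mpr
    nlinarith
  linarith

end Pool.Agent.H60K.H38
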