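import Pool.Agent.Helper38_AEU3.KerF

/-! KER, part G: behaviour near the two sides. -/

set_option autoImplicit false
set_option linter.unusedSimpArgs false
set_option linter.unusedVariables false

namespace Pool.Agent.H60K.H38

open MeasureTheory Complex Filter Topology ProbabilityTheory Pool.Agent.H16Iso Pool.Agent.H62T
  Pool.Agent.H16F Pool.Agent.H38KL

lemma rf_norm_sq (η1 η2 d : ℝ) (s : Fin 3) (hs : hh d s = 0) (x y : ℂ) :
    ‖x - rf' η1 η2 d s y‖ ^ 2 = ‖x - y‖ ^ 2 +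
      4 * ip (us η1 η2 s) x * ip (us η1 η2 s) y := by
  have hu := us_norm η1 η2 s
  have h1 := Complex.sq_norm (us η1 η2 s)
  rw [hu, Complex.normSq_apply] at h1
  unfold rf' rf
  rw [hs]
  rw [← Complex.normSq_eq_norm_sq, ← Complex.normSq_eq_norm_sq, Complex.normSq_apply,
    Complex.normSq_apply]
  simp only [ip, Complex.sub_re, Complex.sub_im, Complex.re_ofReal_mul, Complex.im_ofReal_mul]
  linear_combination (-4 * ((us η1 η2 s).re * y.re + (us η1 η2 s).im * y.im) ^ 2) * h1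

lemma dist_sq_polar (r r' ψ ψ' : ℝ) :
    ‖(r * exp (ψ * I) - r' * exp (ψ' * I) : ℂ)‖ ^ 2 =
      r ^ 2 + r' ^ 2 - 2 * r * r' * Real.cos (ψ - ψ') := by
  rw [← Complex.normSq_eq_norm_sq, Complex.normSq_apply, Real.cos_sub]
  simp only [Complex.sub_re, Complex.sub_im, Complex.re_ofReal_mul, Complex.im_ofReal_mul,
    Complex.exp_ofReal_mul_I_re, Complex.exp_ofReal_mul_I_im]
  have h1 := Real.sin_sq_add_cos_sq ψ
  have h2 := Real.sin_sq_add_cos_sq ψ'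
  linear_combination r ^ 2 * h1 + r' ^ 2 * h2

section

variable {η1 η2 κ r r' ψ ψ' : ℝ}

lemma lap_diff (d : ℝ) (h1 : 0 < η1) (h2 : 0 < η2) (h3 : η1 + η2 < Real.pi)
    (hκ : 0 < κ) (hr : 0 < r) (hr' : 0 < r') (ha' : -η2 < ψ') (hb : ψ < η1) (hb' : ψ' < η1)
    (hlt : ψ' < ψ) :
    IntegrableOn (fun τ => Kit τ (κ * r) * Kit τ (κ * r') * (Real.sinh (τ * (ψ' + η2)) *
      Real.sinh ((Real.pi - (ψ + η2)) * τ))) (Set.Ioi 0) ∧
    Ek η1 η2 d κ 2 (r' * exp (ψ' * I)) (r * exp (ψ * I)) = 2 / Real.pi ^ 2 *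
      ∫ τ in Set.Ioi (0 : ℝ), Kit τ (κ * r) * Kit τ (κ * r') * (Real.sinh (τ * (ψ' + η2)) *
        Real.sinh ((Real.pi - (ψ + η2)) * τ)) := by
  have hpi := Real.pi_pos
  set p1 : ℝ := Real.pi - (ψ - ψ') with hp1
  set p2 : ℝ := Real.pi - (ψ + ψ' + 2 * η2) with hp2
  have hx : 0 < κ * r := mul_pos hκ hr
  have hx' : 0 < κ * r' := mul_pos hκ hr'
  obtain ⟨i1, v1⟩ := ktp (κ * r) (κ * r') p1 hx hx' (by rw [abs_lt]; constructor <;> linarith)
  obtain ⟨i2, v2⟩ := ktp (κ * r) (κ * r') p2 hx hx' (by rw [abs_lt]; constructor <;> linarith)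
  have hk : ∀ τ, Kit (-τ) (κ * r) * Kit (-τ) (κ * r') = Kit τ (κ * r) * Kit τ (κ * r') :=
    fun τ => by rw [Kit_neg, Kit_neg]
  obtain ⟨j1, w1⟩ := fold_exp (k := fun τ => Kit τ (κ * r) * Kit τ (κ * r')) hk p1 i1
  obtain ⟨j2, w2⟩ := fold_exp (k := fun τ => Kit τ (κ * r) * Kit τ (κ * r')) hk p2 i2
  have q1 : √((κ * r) ^ 2 + (κ * r') ^ 2 + 2 * (κ * r) * (κ * r') * Real.cos p1) =
      κ * ‖(r * exp (ψ * I) - r' * exp (ψ' * I) : ℂ)‖ := by
    have : (κ * r) ^ 2 + (κ * r') ^ 2 + 2 * (κ * r) * (κ * r') * Real.cos p1 =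
        (κ * ‖(r * exp (ψ * I) - r' * exp (ψ' * I) : ℂ)‖) ^ 2 := by
      rw [mul_pow κ ‖_‖ 2, dist_sq_polar, hp1, Real.cos_pi_sub]
      ring
    rw [this, Real.sqrt_sq (by positivity)]
  have q2 : √((κ * r) ^ 2 + (κ * r') ^ 2 + 2 * (κ * r) * (κ * r') * Real.cos p2) =
      κ * ‖(r * exp (ψ * I) - rf' η1 η2 d 2 (r' * exp (ψ' * I)) : ℂ)‖ := by
    have : (κ * r) ^ 2 + (κ * r') ^ 2 + 2 * (κ * r) * (κ * r') * Real.cos p2 =
        (κ * ‖(r * exp (ψ * I) - rf' η1 η2 d 2 (r' * exp (ψ' * I)) : ℂ)‖) ^ 2 := by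
      rw [mul_pow κ ‖_‖ 2, rf_norm_sq η1 η2 d 2 (hh2 d), dist_sq_polar, ip2, ip2, hp2,
        Real.cos_pi_sub]
      have e1 : ψ + ψ' + 2 * η2 = (ψ + η2) + (ψ' + η2) := by ring
      have e2 : ψ - ψ' = (ψ + η2) - (ψ' + η2) := by ring
      rw [e1, e2, Real.cos_add, Real.cos_sub]
      ring
    rw [this, Real.sqrt_sq (by positivity)]
  rw [q1, w1] at v1
  rw [q2, w2] at v2
  have hid : ∀ τ : ℝ, Kit τ (κ * r) * Kit τ (κ * r') * (Real.sinh (τ * (ψ' + η2)) *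
      Real.sinh ((Real.pi - (ψ + η2)) * τ)) =
      1 / 2 * (Kit τ (κ * r) * Kit τ (κ * r') * Real.cosh (p1 * τ) -
        Kit τ (κ * r) * Kit τ (κ * r') * Real.cosh (p2 * τ)) := by
    intro τ
    have e1 : p1 * τ = (Real.pi - (ψ + η2)) * τ + τ * (ψ' + η2) := by rw [hp1]; ring
    have e2 : p2 * τ = (Real.pi - (ψ + η2)) * τ - τ * (ψ' + η2) := by rw [hp2]; ring
    rw [e1, e2, Real.cosh_add, Real.cosh_sub]
    ring
  have j3 := (j1.sub j2).const_mul (1 / 2)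
  refine ⟨?_, ?_⟩
  · exact Integrable.congr j3 (Eventually.of_forall fun τ => (hid τ).symm)
  · simp only [hid]
    rw [integral_const_mul, integral_sub j1 j2]
    unfold Ek
    have v1' : Kit 0 (κ * ‖(r * exp (ψ * I) - r' * exp (ψ' * I) : ℂ)‖) = 2 / Real.pi *
        ∫ τ in Set.Ioi (0 : ℝ), Kit τ (κ * r) * Kit τ (κ * r') * Real.cosh (p1 * τ) := by
      rw [div_mul_eq_mul_div, eq_div_iff hpi.ne', v1, mul_comm]
    have v2' : Kit 0 (κ * ‖(r * exp (ψ * I) - rf' η1 η2 d 2 (r' * exp (ψ' * I)) : ℂ)‖) =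
        2 / Real.pi *
        ∫ τ in Set.Ioi (0 : ℝ), Kit τ (κ * r) * Kit τ (κ * r') * Real.cosh (p2 * τ) := by
      rw [div_mul_eq_mul_div, eq_div_iff hpi.ne', v2, mul_comm]
    rw [v1', v2']
    field_simp

lemma sinh_identity (π' θ α τ : ℝ) (hs : Real.sinh (α * τ) ≠ 0) :
    Real.sinh ((π' - θ) * τ) - Real.sinh (τ * θ) * (Real.sinh ((π' - α) * τ) /
      Real.sinh (α * τ)) = Real.sinh (π' * τ) * (Real.sinh ((α - θ) * τ) / Real.sinh (α * τ)) := by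
  have e1 : (π' - θ) * τ = π' * τ - θ * τ := by ring
  have e2 : (π' - α) * τ = π' * τ - α * τ := by ring
  have e3 : (α - θ) * τ = α * τ - θ * τ := by ring
  rw [e1, e2, e3, mul_comm τ θ, Real.sinh_sub, Real.sinh_sub, Real.sinh_sub]
  generalize Real.sinh (α * τ) = S at *
  generalize Real.sinh (π' * τ) = S1 at *
  generalize Real.cosh (π' * τ) = C1 at *
  generalize Real.sinh (θ * τ) = S2 at *
  generalize Real.cosh (θ * τ) = C2 at *
  generalize Real.cosh (α * τ) = C3 at *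
  field_simp
  ring

/-- near side 1 -/
lemma near1 (hS : KtsStatement) (hB : KtbStatement) (d : ℝ) (h1 : 0 < η1) (h2 : 0 < η2)
    (h3 : η1 + η2 < Real.pi)
    (hκ : 0 < κ) (hr : 0 < r) (hr' : 0 < r') (ha' : -η2 < ψ') (hb : ψ < η1) (hb' : ψ' < η1)
    (hlt : η1 - lam0 η1 ψ' / 2 < ψ) :
    |Ek η1 η2 d κ 2 (r' * exp (ψ' * I)) (r * exp (ψ * I)) -
      Vk η1 η2 κ r' ψ' (r * exp (ψ * I))| ≤
      (η1 - ψ) / (lam0 η1 ψ' / 2) * (Kit 0 (κ * r * Real.cos (ph0 η1 ψ')) *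
        Kit 0 (κ * r' * Real.cos (ph0 η1 ψ'))) / (lam0 η1 ψ' / 2) := by
  have hpi := Real.pi_pos
  have hl : 0 < lam0 η1 ψ' := by unfold lam0; linarith
  have hlt' : ψ' < ψ := by unfold lam0 at hlt; linarith
  have ha : -η2 < ψ := by linarith
  obtain ⟨i1, v1⟩ := lap_diff d h1 h2 h3 hκ hr hr' ha' hb hb' hlt'
  have i2 : IntegrableOn (fun τ => Kit τ (κ * r) * Kit τ (κ * r') * Real.sinh (τ * (ψ + η2)) *
      Real.sinh (τ * (ψ' + η2)) * (Real.sinh ((Real.pi - (η1 + η2)) * τ) /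
        Real.sinh ((η1 + η2) * τ))) (Set.Ioi 0) := by
    have h := (F_intg hS hB h1 h2 h3 hκ hr hr' ha hb ha' hb').const_mul (1 / 2)
    refine Integrable.congr h (Eventually.of_forall fun τ => ?_)
    simp only
    rw [Vf_polar hS h3 hκ hr ha hb]
    unfold qf
    ring
  rw [v1, Vk_polar hS h3 hκ hr ha hb, ← mul_sub, ← integral_sub i1 i2, abs_mul,
    abs_of_pos (by positivity : 0 < 2 / Real.pi ^ 2)]
  have hpi2 : 2 / Real.pi ^ 2 ≤ 1 := by
    rw [div_le_one (by positivity)]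
    nlinarith [Real.pi_gt_three]
  have hc := cos_ph0 hb' ha' h3
  have hK1 : 0 < Kit 0 (κ * r * Real.cos (ph0 η1 ψ')) := hB.2.2.2.1 _ (by positivity)
  have hK2 : 0 < Kit 0 (κ * r' * Real.cos (ph0 η1 ψ')) := hB.2.2.2.1 _ (by positivity)
  have hph1 : 0 ≤ ph0 η1 ψ' := by unfold ph0; linarith
  have hph2 : ph0 η1 ψ' < Real.pi / 2 := by unfold ph0; linarith
  have hl2 : 0 < lam0 η1 ψ' / 2 := by positivity
  have hal : 0 < η1 + η2 := by linarith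
  set C : ℝ := (η1 - ψ) / (lam0 η1 ψ' / 2) * (Kit 0 (κ * r * Real.cos (ph0 η1 ψ')) *
        Kit 0 (κ * r' * Real.cos (ph0 η1 ψ'))) with hC
  have key : ‖∫ τ in Set.Ioi (0 : ℝ), (Kit τ (κ * r) * Kit τ (κ * r') *
      (Real.sinh (τ * (ψ' + η2)) * Real.sinh ((Real.pi - (ψ + η2)) * τ)) -
      Kit τ (κ * r) * Kit τ (κ * r') * Real.sinh (τ * (ψ + η2)) *
      Real.sinh (τ * (ψ' + η2)) * (Real.sinh ((Real.pi - (η1 + η2)) * τ) /
        Real.sinh ((η1 + η2) * τ)))‖ ≤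
      ∫ τ in Set.Ioi (0 : ℝ), C * Real.exp (-(lam0 η1 ψ' / 2 * τ)) := by
    refine norm_integral_le_of_norm_le (exp_intg hl2 C)
      ((ae_restrict_iff' measurableSet_Ioi).mpr (Eventually.of_forall fun τ hτ => ?_))
    have hτ0 : 0 < τ := hτ
    have s1 : 0 < Real.sinh ((η1 + η2) * τ) := Real.sinh_pos_iff.mpr (by positivity)
    have e1 : Kit τ (κ * r) * Kit τ (κ * r') *
      (Real.sinh (τ * (ψ' + η2)) * Real.sinh ((Real.pi - (ψ + η2)) * τ)) -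
      Kit τ (κ * r) * Kit τ (κ * r') * Real.sinh (τ * (ψ + η2)) *
      Real.sinh (τ * (ψ' + η2)) * (Real.sinh ((Real.pi - (η1 + η2)) * τ) /
        Real.sinh ((η1 + η2) * τ)) = Kit τ (κ * r) * (Kit τ (κ * r') *
      (Real.sinh (τ * (ψ' + η2)) * (Real.sinh (Real.pi * τ) *
        (Real.sinh ((η1 - ψ) * τ) / Real.sinh ((η1 + η2) * τ))))) := by
      have hid := sinh_identity Real.pi (ψ + η2) (η1 + η2) τ s1.ne'
      have e2 : η1 + η2 - (ψ + η2) = η1 - ψ := by ring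
      rw [e2] at hid
      rw [← hid]
      ring
    rw [e1]
    have b1 := hS.1 τ (κ * r) (ph0 η1 ψ') (by positivity) hτ0.le hph1 hph2
    have b2 := hS.1 τ (κ * r') (ph0 η1 ψ') (by positivity) hτ0.le hph1 hph2
    have b3 := sinh_le_exp (τ * (ψ' + η2))
    have b4 := sinh_le_exp (Real.pi * τ)
    have s3 : 0 ≤ Real.sinh (τ * (ψ' + η2)) := Real.sinh_nonneg_iff.mpr
      (mul_nonneg hτ0.le (by linarith))
    have s4 : 0 ≤ Real.sinh (Real.pi * τ) := Real.sinh_nonneg_iff.mpr (by positivity)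
    have s5 : 0 ≤ Real.sinh ((η1 - ψ) * τ) := Real.sinh_nonneg_iff.mpr
      (mul_nonneg (by linarith) hτ0.le)
    have b5 : Real.sinh ((η1 - ψ) * τ) / Real.sinh ((η1 + η2) * τ) ≤
        (η1 - ψ) / (lam0 η1 ψ' / 2) *
          Real.exp (-(((η1 + η2) - lam0 η1 ψ' / 2) * τ)) := by
      have c1 := sinh_le_frac (a := (η1 - ψ) * τ) (b := lam0 η1 ψ' / 2 * τ)
        (mul_nonneg (by linarith) hτ0.le) (mul_le_mul_of_nonneg_right (by linarith) hτ0.le)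
        (by positivity)
      have e3 : (η1 - ψ) * τ / (lam0 η1 ψ' / 2 * τ) = (η1 - ψ) / (lam0 η1 ψ' / 2) := by
        field_simp
      rw [e3] at c1
      have c2 := sinh_ratio (l := lam0 η1 ψ' / 2) (α := η1 + η2) hal hτ0 (by
        unfold lam0; linarith)
      have c0 : 0 ≤ (η1 - ψ) / (lam0 η1 ψ' / 2) := div_nonneg (by linarith) hl2.le
      calc Real.sinh ((η1 - ψ) * τ) / Real.sinh ((η1 + η2) * τ)
          ≤ ((η1 - ψ) / (lam0 η1 ψ' / 2) * Real.sinh (lam0 η1 ψ' / 2 * τ)) /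
            Real.sinh ((η1 + η2) * τ) := by gcongr
        _ = (η1 - ψ) / (lam0 η1 ψ' / 2) * (Real.sinh (lam0 η1 ψ' / 2 * τ) /
            Real.sinh ((η1 + η2) * τ)) := by ring
        _ ≤ _ := by gcongr
    have s6 : 0 ≤ Real.sinh ((η1 - ψ) * τ) / Real.sinh ((η1 + η2) * τ) :=
      div_nonneg s5 s1.le
    rw [Real.norm_eq_abs, abs_mul, abs_mul, abs_of_nonneg (mul_nonneg s3 (mul_nonneg s4 s6))]
    calc |Kit τ (κ * r)| * (|Kit τ (κ * r')| * (Real.sinh (τ * (ψ' + η2)) *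
          (Real.sinh (Real.pi * τ) * (Real.sinh ((η1 - ψ) * τ) / Real.sinh ((η1 + η2) * τ)))))
        ≤ (Real.exp (-(ph0 η1 ψ' * τ)) * Kit 0 (κ * r * Real.cos (ph0 η1 ψ'))) *
          ((Real.exp (-(ph0 η1 ψ' * τ)) * Kit 0 (κ * r' * Real.cos (ph0 η1 ψ'))) *
          (Real.exp (τ * (ψ' + η2)) * (Real.exp (Real.pi * τ) *
          ((η1 - ψ) / (lam0 η1 ψ' / 2) *
          Real.exp (-(((η1 + η2) - lam0 η1 ψ' / 2) * τ)))))) := by gcongr
      _ = C * (Real.exp (-(ph0 η1 ψ' * τ)) * Real.exp (-(ph0 η1 ψ' * τ)) *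
          Real.exp (τ * (ψ' + η2)) * Real.exp (Real.pi * τ) *
          Real.exp (-(((η1 + η2) - lam0 η1 ψ' / 2) * τ))) := by rw [hC]; ring
      _ = C * Real.exp (-(lam0 η1 ψ' / 2 * τ)) := by
          rw [← Real.exp_add, ← Real.exp_add, ← Real.exp_add, ← Real.exp_add]
          congr 2
          unfold ph0 lam0
          ring
  rw [exp_int hl2, Real.norm_eq_abs] at key
  have hnn := abs_nonneg (∫ τ in Set.Ioi (0 : ℝ), (Kit τ (κ * r) * Kit τ (κ * r') *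
      (Real.sinh (τ * (ψ' + η2)) * Real.sinh ((Real.pi - (ψ + η2)) * τ)) -
      Kit τ (κ * r) * Kit τ (κ * r') * Real.sinh (τ * (ψ + η2)) *
      Real.sinh (τ * (ψ' + η2)) * (Real.sinh ((Real.pi - (η1 + η2)) * τ) /
        Real.sinh ((η1 + η2) * τ))))
  refine le_trans (mul_le_of_le_one_left hnn hpi2) key

end

end Pool.Agent.H60K.H38
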