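import Pool.Agent.Helper38_AEU3.KerG

/-! KER, part H: the boundary behaviour of the difference. -/

set_option autoImplicit false
set_option linter.unusedSimpArgs false
set_option linter.unusedVariables false

namespace Pool.Agent.H60K.H38

open MeasureTheory Complex Filter Topology ProbabilityTheory Pool.Agent.H16Iso Pool.Agent.H62T
  Pool.Agent.H16F Pool.Agent.H38KL

lemma Kit0_contOn (hB : KtbStatement) {κ : ℝ} (hκ : 0 < κ) :
    ContinuousOn (fun x : ℝ => Kit 0 (κ * x)) (Set.Ioi 0) := by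
  have h := hB.2.2.2.2.2.2.2.2.2
  have h2 : ContinuousOn (fun x : ℝ => ((0 : ℝ), κ * x)) (Set.Ioi 0) := by fun_prop
  exact h.comp h2 fun x hx => ⟨Set.mem_univ _, mul_pos hκ hx⟩

section

variable {η1 η2 κ r' ψ' : ℝ}

/-- near a side the free kernels almost cancel -/
lemma side (hB : KtbStatement) (d : ℝ) (hκ : 0 < κ) {z' : ℂ} (hz' : z' ∈ Wd η1 η2)
    (s : Fin 3) (hs : s = 1 ∨ s = 2) (R0 : ℝ) {ε : ℝ} (hε : 0 < ε) :
    ∃ δ : ℝ, 0 < δ ∧ ∀ z ∈ Wd η1 η2, ‖z‖ ≤ R0 → -ip (us η1 η2 s) z < δ →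
      z ≠ z' ∧ |Ek η1 η2 d κ s z' z| ≤ ε := by
  have hsh : hh d s = 0 := by rcases hs with rfl | rfl <;> simp [hh]
  have hneg : ∀ z ∈ Wd η1 η2, ip (us η1 η2 s) z < 0 := by
    intro z hz
    rcases hs with rfl | rfl
    · exact hz.1
    · exact hz.2
  set a : ℝ := -ip (us η1 η2 s) z' with ha
  have ha0 : 0 < a := by have := hneg z' hz'; linarith
  set X : ℝ := R0 + ‖z'‖ + ‖rf' η1 η2 d s z'‖ with hX
  have hcont : ContinuousOn (fun x : ℝ => Kit 0 (κ * x)) (Set.Icc (a / 2) X) :=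
    (Kit0_contOn hB hκ).mono fun x hx => lt_of_lt_of_le (by positivity : 0 < a / 2) hx.1
  have huc := isCompact_Icc.uniformContinuousOn_of_continuous hcont
  obtain ⟨δ1, hδ1, hu⟩ := Metric.uniformContinuousOn_iff.mp huc ε hε
  refine ⟨min (a / 2) (δ1 / 4), lt_min (by positivity) (by positivity), fun z hz hzR hzd => ?_⟩
  have hd1 : -ip (us η1 η2 s) z < a / 2 := hzd.trans_le (min_le_left _ _)
  have hd2 : -ip (us η1 η2 s) z < δ1 / 4 := hzd.trans_le (min_le_right _ _)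
  have hzn := hneg z hz
  have b1 := abs_ip_le (us_norm η1 η2 s) (z - z')
  rw [ip_sub] at b1
  have b2 := le_abs_self (ip (us η1 η2 s) z - ip (us η1 η2 s) z')
  have x1 : a / 2 ≤ ‖z - z'‖ := by linarith
  have x2 : a ≤ ‖z - rf' η1 η2 d s z'‖ := dist_rf' η1 η2 d s hsh hzn
  have y1 : ‖z - z'‖ ≤ X := by
    have := norm_sub_le z z'
    have := norm_nonneg (rf' η1 η2 d s z')
    linarith
  have y2 : ‖z - rf' η1 η2 d s z'‖ ≤ X := by
    have := norm_sub_le z (rf' η1 η2 d s z')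
    have := norm_nonneg z'
    linarith
  have hsq := rf_norm_sq η1 η2 d s hsh z z'
  have hdiff : |‖z - z'‖ - ‖z - rf' η1 η2 d s z'‖| < δ1 := by
    set p := ‖z - z'‖ with hp
    set q := ‖z - rf' η1 η2 d s z'‖ with hq
    have h1 : (q - p) * (q + p) = 4 * (-ip (us η1 η2 s) z) * a := by
      rw [ha]
      nlinarith
    have h2 : 0 < (q - p) * (q + p) := by
      rw [h1]
      have : 0 < -ip (us η1 η2 s) z := by linarith
      positivity
    have h3 : 0 < q + p := by linarith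
    have h4 : 0 < q - p := by
      by_contra hn
      push Not at hn
      have := mul_nonpos_of_nonpos_of_nonneg hn h3.le
      linarith
    have h5 : (q - p) * a ≤ 4 * (-ip (us η1 η2 s) z) * a := by
      rw [← h1]
      exact mul_le_mul_of_nonneg_left (by linarith) h4.le
    have h6 : q - p ≤ 4 * (-ip (us η1 η2 s) z) := le_of_mul_le_mul_right h5 ha0
    rw [abs_sub_comm, abs_of_pos h4]
    linarith
  refine ⟨?_, ?_⟩
  · rintro rfl
    simp at x1
    linarith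
  · have h := hu _ ⟨x1, y1⟩ _ ⟨by linarith, y2⟩ (by rw [Real.dist_eq]; exact hdiff)
    rw [Real.dist_eq] at h
    unfold Ek
    have h2pi : 1 ≤ 2 * Real.pi := by linarith only [Real.pi_gt_three]
    rw [abs_div, abs_of_pos (by linarith : 0 < 2 * Real.pi), div_le_iff₀ (by linarith)]
    nlinarith

/-- at infinity -/
lemma bd_inf (hS : KtsStatement) (hB : KtbStatement) (hL : KtlStatement) (d : ℝ) (h1 : 0 < η1)
    (h2 : 0 < η2) (h3 : η1 + η2 < Real.pi) (hκ : 0 < κ) (hr' : 0 < r') (ha' : -η2 < ψ')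
    (hb' : ψ' < η1) {ε : ℝ} (hε : 0 < ε) :
    ∃ R0 : ℝ, 0 < R0 ∧ ∀ z ∈ Wd η1 η2, R0 ≤ ‖z‖ →
      |Rk η1 η2 d κ (r' * exp (ψ' * I)) z - Vk η1 η2 κ r' ψ' z| ≤ ε := by
  have hl : 0 < lam0 η1 ψ' := by unfold lam0; linarith
  have hc := cos_ph0 hb' ha' h3
  have hK : 0 < Kit 0 (κ * r' * Real.cos (ph0 η1 ψ')) := hB.2.2.2.1 _ (by positivity)
  set K := Kit 0 (κ * r' * Real.cos (ph0 η1 ψ')) with hKd
  set z' : ℂ := r' * exp (ψ' * I) with hz'd
  have hz' : z' ∈ Wd η1 η2 := mem_Wd h3 hr' ha' hb'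
  set ε1 : ℝ := min (ε / 2) (ε * lam0 η1 ψ' / (4 * K)) with hε1
  have hε1p : 0 < ε1 := lt_min (by positivity) (by positivity)
  have hev := (Kit0_top hB).eventually (gt_mem_nhds hε1p)
  obtain ⟨X0, hX0⟩ := (eventually_atTop.mp hev)
  set X1 : ℝ := max X0 1 with hX1
  have hX1p : 0 < X1 := lt_of_lt_of_le one_pos (le_max_right _ _)
  have hX : ∀ x, X1 ≤ x → Kit 0 x ≤ ε1 := fun x hx =>
    (hX0 x ((le_max_left _ _).trans hx)).le
  set q : ℂ := rf' η1 η2 d 1 z' with hq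
  refine ⟨X1 / (κ * Real.cos (ph0 η1 ψ')) + X1 / κ + ‖q‖, by positivity, fun z hz hn => ?_⟩
  set R0 : ℝ := X1 / (κ * Real.cos (ph0 η1 ψ')) + X1 / κ + ‖q‖ with hR0
  have hR0p : 0 < R0 := by positivity
  have hV := Vk_le_away hS hB h1 h2 h3 hκ hr' ha' hb' hR0p hz hn
  obtain ⟨-, hR, hR'⟩ := Rk_intg η1 η2 d hL hκ hz hz'
  have g1 : X1 ≤ κ * R0 * Real.cos (ph0 η1 ψ') := by
    have : X1 / (κ * Real.cos (ph0 η1 ψ')) ≤ R0 := by
      have : 0 ≤ X1 / κ := by positivity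
      have := norm_nonneg q
      linarith
    rw [div_le_iff₀ (by positivity)] at this
    linarith
  have g2 : X1 ≤ κ * ‖z - q‖ := by
    have e1 : X1 / κ ≤ ‖z - q‖ := by
      have t1 := norm_sub_norm_le z q
      have t2 : 0 ≤ X1 / (κ * Real.cos (ph0 η1 ψ')) := by positivity
      linarith
    rw [div_le_iff₀ hκ] at e1
    linarith
  have k1 := hX _ g1
  have k2 := hX _ g2
  have h2pi : 1 ≤ 2 * Real.pi := by linarith only [Real.pi_gt_three]
  have v1 : |Vk η1 η2 κ r' ψ' z| ≤ ε / 2 := by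
    refine hV.trans ?_
    have : Kit 0 (κ * R0 * Real.cos (ph0 η1 ψ')) ≤ ε * lam0 η1 ψ' / (4 * K) :=
      k1.trans (min_le_right _ _)
    rw [div_le_iff₀ hl]
    rw [le_div_iff₀ (by positivity)] at this
    linarith
  have v2 : Rk η1 η2 d κ z' z ≤ ε / 2 := by
    refine hR.trans ?_
    rw [div_le_iff₀ (by linarith)]
    have : Kit 0 (κ * ‖z - q‖) ≤ ε / 2 := k2.trans (min_le_left _ _)
    nlinarith only [this, h2pi, hε]
  have := abs_le.mp v1
  rw [abs_le]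
  constructor <;> linarith

/-- at the vertex -/
lemma bd_zero (hS : KtsStatement) (hB : KtbStatement) (hL : KtlStatement) (d : ℝ) (h1 : 0 < η1)
    (h2 : 0 < η2) (h3 : η1 + η2 < Real.pi) (hκ : 0 < κ) (hr' : 0 < r') (ha' : -η2 < ψ')
    (hb' : ψ' < η1) {ε : ℝ} (hε : 0 < ε) :
    ∃ r0 : ℝ, 0 < r0 ∧ ∀ z ∈ Wd η1 η2, ‖z‖ < r0 →
      |Rk η1 η2 d κ (r' * exp (ψ' * I)) z - Vk η1 η2 κ r' ψ' z| ≤ ε * (1 + Bf κ z) := by
  have hpi := Real.pi_pos
  have hl : 0 < lam0 η1 ψ' := by unfold lam0; linarith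
  have hc := cos_ph0 hb' ha' h3
  have hc1 : Real.cos (ph0 η1 ψ') ≤ 1 := Real.cos_le_one _
  have hph1 : 0 ≤ ph0 η1 ψ' := by unfold ph0; linarith
  have hph2 : ph0 η1 ψ' < Real.pi / 2 := by unfold ph0; linarith
  have hK : 0 < Kit 0 (κ * r' * Real.cos (ph0 η1 ψ')) := hB.2.2.2.1 _ (by positivity)
  set K := Kit 0 (κ * r' * Real.cos (ph0 η1 ψ')) with hKd
  set z' : ℂ := r' * exp (ψ' * I) with hz'd
  have hz' : z' ∈ Wd η1 η2 := mem_Wd h3 hr' ha' hb'
  set A : ℝ := Real.log (2 / Real.cos (ph0 η1 ψ')) with hA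
  have hA0 : 0 ≤ A := Real.log_nonneg (by rw [le_div_iff₀ hc]; linarith)
  set P : ℝ → ℝ := fun τ => 2 * K * (Real.exp ((ph0 η1 ψ' - lam0 η1 ψ') * τ) / τ) with hP
  set Q : ℝ → ℝ := fun τ => 2 * K * (A + 1) * Real.exp (-(lam0 η1 ψ' * τ)) with hQ
  have hQi : IntegrableOn Q (Set.Ioi 0) := exp_intg hl (2 * K * (A + 1))
  have hPm : Measurable P := by
    rw [hP]
    fun_prop
  have hQm : Measurable Q := by
    rw [hQ]
    fun_prop
  have hP0 : ∀ τ, 0 < τ → 0 ≤ P τ := fun τ hτ => by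
    rw [hP]
    positivity
  have hQ0 : ∀ τ, 0 < τ → 0 ≤ Q τ := fun τ hτ => by
    rw [hQ]
    positivity
  have hmt := min_tendsto hPm hQm hP0 hQ0 hQi
  have hev := hmt.eventually (gt_mem_nhds (by positivity : 0 < ε / 2))
  obtain ⟨b0, hb0⟩ := eventually_atTop.mp hev
  set a : ℝ := -ip (us η1 η2 1) z' with ha
  have ha0 : 0 < a := by have := hz'.1; linarith
  have hKa : 0 < Kit 0 (κ * a) := hB.2.2.2.1 _ (by positivity)
  -- choice of the radius
  have hT := hB.2.2.2.2.2.2.2.1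
  have hev2 := hT.eventually (eventually_ge_atTop (max b0 (max 1 (2 * Kit 0 (κ * a) / ε))))
  rw [eventually_nhdsWithin_iff, Metric.eventually_nhds_iff] at hev2
  obtain ⟨x0, hx0, hx⟩ := hev2
  refine ⟨x0 / κ, by positivity, fun z hz hn => ?_⟩
  have hzn : 0 < ‖z‖ := by
    rw [norm_pos_iff]
    rintro rfl
    have := hz.1
    simp [ip] at this
  have hbig : max b0 (max 1 (2 * Kit 0 (κ * a) / ε)) ≤ Kit 0 (κ * ‖z‖) := by
    refine hx ?_ (Set.mem_Ioi.mpr (by positivity))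
    rw [Real.dist_eq, sub_zero, abs_of_pos (by positivity)]
    rw [lt_div_iff₀ hκ] at hn
    linarith
  set b : ℝ := Kit 0 (κ * ‖z‖) with hb
  have hbb0 : b0 ≤ b := (le_max_left _ _).trans hbig
  have hb1 : 1 ≤ b := ((le_max_left _ _).trans (le_max_right _ _)).trans hbig
  have hb2 : 2 * Kit 0 (κ * a) / ε ≤ b := ((le_max_right _ _).trans (le_max_right _ _)).trans hbig
  have hbp : 0 < b := by linarith
  have hBf : Bf κ z = b := rfl
  -- the resolvent
  obtain ⟨-, hR, hR'⟩ := Rk_intg η1 η2 d hL hκ hz hz'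
  have h2pi : 1 ≤ 2 * Real.pi := by linarith only [Real.pi_gt_three]
  have v2 : Rk η1 η2 d κ z' z ≤ ε / 2 * b := by
    have hd := dist_rf' η1 η2 d 1 (hh1 d) (x := z) (y := z') hz.1
    have k1 : Kit 0 (κ * ‖z - rf' η1 η2 d 1 z'‖) ≤ Kit 0 (κ * a) :=
      hB.2.2.2.2.1 (Set.mem_Ioi.mpr (by positivity))
        (Set.mem_Ioi.mpr (mul_pos hκ (ha0.trans_le hd))) (by gcongr)
    have k2 : Kit 0 (κ * ‖z - rf' η1 η2 d 1 z'‖) / (2 * Real.pi) ≤ Kit 0 (κ * a) := by
      rw [div_le_iff₀ (by linarith)]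
      nlinarith only [k1, h2pi, hKa]
    rw [div_le_iff₀ hε] at hb2
    linarith
  -- the explicit kernel
  have v1 : |Vk η1 η2 κ r' ψ' z| ≤ ε / 2 * b := by
    obtain ⟨r, ψ, hr, hpa, hpb, rfl⟩ := Wd_polar h1 h2 h3 hz
    rw [norm_polar hr] at hb
    have hf := frac_le_one h1 h2 hpb
    have hf0 : 0 ≤ (ψ + η2) / (η1 + η2) := div_nonneg (by linarith) (by linarith)
    have hpt : ∀ τ ∈ Set.Ioi (0 : ℝ), ‖1 / Real.pi ^ 2 * qf η1 η2 κ r' ψ' τ *
        Vf η1 η2 κ τ (r * exp (ψ * I))‖ ≤ b * min (P τ / b) (Q τ) := by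
      intro τ hτ
      have hτ0 : 0 < τ := hτ
      have hF := Fbound hS hB h1 h2 h3 hκ hr hr' hpa hpb ha' hb' hτ0
      have hpi2 : 1 / Real.pi ^ 2 ≤ 1 := by
        rw [div_le_one (by positivity)]
        nlinarith only [Real.pi_gt_three]
      have hF2 : ‖1 / Real.pi ^ 2 * qf η1 η2 κ r' ψ' τ * Vf η1 η2 κ τ (r * exp (ψ * I))‖ ≤
          2 * (|Kit τ (κ * r)| * (Real.exp ((ph0 η1 ψ' - lam0 η1 ψ') * τ) * K)) := by
        rw [Real.norm_eq_abs, mul_assoc, abs_mul, abs_of_pos (by positivity : 0 < 1 / Real.pi ^ 2)]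
        calc 1 / Real.pi ^ 2 * |qf η1 η2 κ r' ψ' τ * Vf η1 η2 κ τ (r * exp (ψ * I))|
            ≤ 1 * |qf η1 η2 κ r' ψ' τ * Vf η1 η2 κ τ (r * exp (ψ * I))| := by gcongr
          _ ≤ 2 * ((ψ + η2) / (η1 + η2)) * (|Kit τ (κ * r)| *
              (Real.exp ((ph0 η1 ψ' - lam0 η1 ψ') * τ) * K)) := by
                rw [one_mul]; exact hF
          _ ≤ 2 * 1 * (|Kit τ (κ * r)| *
              (Real.exp ((ph0 η1 ψ' - lam0 η1 ψ') * τ) * K)) := by gcongr
          _ = _ := by ring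
      refine hF2.trans ?_
      rw [mul_min_of_nonneg _ _ hbp.le, mul_div_cancel₀ _ hbp.ne']
      refine le_min ?_ ?_
      · have c1 := hB.2.2.2.2.2.1 τ (κ * r) (by positivity) hτ0
        calc 2 * (|Kit τ (κ * r)| * (Real.exp ((ph0 η1 ψ' - lam0 η1 ψ') * τ) * K))
            ≤ 2 * (1 / τ * (Real.exp ((ph0 η1 ψ' - lam0 η1 ψ') * τ) * K)) := by gcongr
          _ = P τ := by rw [hP]; ring
      · have c1 := hS.1 τ (κ * r) (ph0 η1 ψ') (by positivity) hτ0.le hph1 hph2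
        have c2 := Kit0_scale hc hc1 (by positivity : 0 < κ * r)
        have c3 : Kit 0 (κ * r * Real.cos (ph0 η1 ψ')) ≤ (A + 1) * b := by
          refine c2.trans ?_
          rw [← hb]
          nlinarith only [hA0, hb1]
        calc 2 * (|Kit τ (κ * r)| * (Real.exp ((ph0 η1 ψ' - lam0 η1 ψ') * τ) * K))
            ≤ 2 * ((Real.exp (-(ph0 η1 ψ' * τ)) * ((A + 1) * b)) *
              (Real.exp ((ph0 η1 ψ' - lam0 η1 ψ') * τ) * K)) := by
              gcongr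
              exact c1.trans (by gcongr)
          _ = b * (2 * K * (A + 1) * (Real.exp (-(ph0 η1 ψ' * τ)) *
              Real.exp ((ph0 η1 ψ' - lam0 η1 ψ') * τ))) := by ring
          _ = b * Q τ := by
              rw [← Real.exp_add, hQ]
              congr 3
              ring
    have hmi : IntegrableOn (fun τ => min (P τ / b) (Q τ)) (Set.Ioi 0) := by
      refine hQi.mono' ((hPm.div_const b).min hQm).aestronglyMeasurable
        ((ae_restrict_iff' measurableSet_Ioi).mpr (Eventually.of_forall fun τ hτ => ?_))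
      rw [Real.norm_of_nonneg (le_min (div_nonneg (hP0 τ hτ) hbp.le) (hQ0 τ hτ))]
      exact min_le_right _ _
    have hfin := norm_integral_le_of_norm_le (hmi.const_mul b)
      ((ae_restrict_iff' measurableSet_Ioi).mpr (Eventually.of_forall hpt))
    rw [integral_const_mul, Real.norm_eq_abs] at hfin
    unfold Vk
    refine hfin.trans ?_
    have := (hb0 b hbb0).le
    nlinarith only [this, hbp]
  have v3 := abs_le.mp v1
  rw [hBf, abs_le]
  constructor <;> nlinarith only [v3.1, v3.2, v2, hR, hR', hε, hbp]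

end

end Pool.Agent.H60K.H38
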